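import Mathlib

/-!
An affine group containing the Baumslag-Solitar group BS(1,2), and the graph over its subgroup
generated by cubes.
-/

set_option autoImplicit false

namespace Pool.Agent.H744Z

abbrev RR := ℚ × ZMod 3 × ZMod 7

/-- The unit one half. -/
def hu : RRˣ := ⟨(1 / 2, 2, 4), (2, 2, 2), by ext <;> simp <;> decide, by ext <;> simp <;> decide⟩

/-- Affine maps `z ↦ hu ^ n * z + q`. -/
@[ext] structure Aff where
  n : ℤ
  q : RR

namespace Aff

instance : Mul Aff := ⟨fun x y => ⟨x.n + y.n, x.q + ((hu ^ x.n : RRˣ) : RR) * y.q⟩⟩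
instance : One Aff := ⟨⟨0, 0⟩⟩
instance : Inv Aff := ⟨fun x => ⟨-x.n, -(((hu ^ (-x.n) : RRˣ) : RR) * x.q)⟩⟩

@[simp] theorem mul_n (x y : Aff) : (x * y).n = x.n + y.n := rfl
@[simp] theorem mul_q (x y : Aff) : (x * y).q = x.q + ((hu ^ x.n : RRˣ) : RR) * y.q := rfl
@[simp] theorem one_n : (1 : Aff).n = 0 := rfl
@[simp] theorem one_q : (1 : Aff).q = 0 := rfl
@[simp] theorem inv_n (x : Aff) : (x⁻¹).n = -x.n := rfl
@[simp] theorem inv_q (x : Aff) : (x⁻¹).q = -(((hu ^ (-x.n) : RRˣ) : RR) * x.q) := rfl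

instance : Group Aff := Group.ofLeftAxioms
  (fun x y z => by
    apply Aff.ext
    · simp [add_assoc]
    · simp only [mul_q, mul_n, zpow_add, Units.val_mul]; ring)
  (fun x => by apply Aff.ext <;> simp)
  (fun x => by apply Aff.ext <;> simp)

/-- Dilations. -/
def D : Multiplicative ℤ →* Aff where
  toFun k := ⟨k.toAdd, 0⟩
  map_one' := rfl
  map_mul' x y := by apply Aff.ext <;> simp

/-- Integer translations. -/
def T : Multiplicative ℤ →* Aff where
  toFun k := ⟨0, (k.toAdd : RR)⟩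
  map_one' := by apply Aff.ext <;> simp
  map_mul' x y := by apply Aff.ext <;> simp

@[simp] theorem D_n (k : Multiplicative ℤ) : (D k).n = k.toAdd := rfl
@[simp] theorem D_q (k : Multiplicative ℤ) : (D k).q = 0 := rfl
@[simp] theorem T_n (k : Multiplicative ℤ) : (T k).n = 0 := rfl
@[simp] theorem T_q (k : Multiplicative ℤ) : (T k).q = (k.toAdd : RR) := rfl

theorem D_inj : Function.Injective D := by
  intro x y h
  have := congrArg Aff.n h
  simpa using this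

theorem T_inj : Function.Injective T := by
  intro x y h
  have := congrArg (fun z : Aff => z.q.1) h
  simp only [T_q, Prod.fst_intCast, Int.cast_inj] at this
  exact Multiplicative.toAdd.injective this

/-- The generator of the integers. -/
abbrev gen : Multiplicative ℤ := Multiplicative.ofAdd 1

theorem eq_gen_zpow (k : Multiplicative ℤ) : k = gen ^ k.toAdd := by
  apply Multiplicative.toAdd.injective
  simp

theorem D_pow (k : ℕ) : D gen ^ k = ⟨k, 0⟩ := by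
  rw [← map_pow]
  apply Aff.ext
  · rw [D_n]; simp
  · rw [D_q]

theorem T_pow (k : ℕ) : T gen ^ k = ⟨0, k⟩ := by
  rw [← map_pow]
  apply Aff.ext
  · rw [T_n]
  · rw [T_q]; simp

theorem rel : (D gen)⁻¹ * T gen * D gen = T gen ^ 2 := by
  rw [T_pow]
  apply Aff.ext
  · simp
  · simp only [mul_q, inv_q, D_n, D_q, T_q, inv_n, mul_n, T_n]
    simp [hu]
    ext <;> simp

theorem D_eq_T {k m : Multiplicative ℤ} (h : D k = T m) : k = 1 ∧ m = 1 := by
  have h1 := congrArg Aff.n h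
  have h2 := congrArg (fun z : Aff => z.q.1) h
  simp only [D_n, T_n, D_q, T_q, Prod.fst_intCast, Prod.fst_zero] at h1 h2
  refine ⟨Multiplicative.toAdd.injective (by simpa using h1), Multiplicative.toAdd.injective ?_⟩
  have : (m.toAdd : ℚ) = 0 := h2.symm
  simpa using this

theorem hu7 {n : ℤ} (h : (3 : ℤ) ∣ n) : (((hu ^ n : RRˣ) : RR)).2.2 = 1 := by
  obtain ⟨k, rfl⟩ := h
  let f : RR →+* ZMod 7 := (RingHom.snd _ _).comp (RingHom.snd _ _)
  have h1 : Units.map f.toMonoidHom (hu ^ (3 : ℤ)) = 1 := by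
    apply Units.ext
    simp only [map_zpow]
    rw [show (3 : ℤ) = ((3 : ℕ) : ℤ) from rfl, zpow_natCast]
    simp [hu, f]
    decide
  have h2 : Units.map f.toMonoidHom (hu ^ (3 * k)) = 1 := by
    rw [zpow_mul, map_zpow, h1, one_zpow]
  exact congrArg Units.val h2

end Aff

open Aff

variable {Q : Type*} [Group Q]

theorem zpow_congr7 {v : Q} (hv : v ^ 7 = 1) {k m : ℤ} (h : (k : ZMod 7) = (m : ZMod 7)) :
    v ^ k = v ^ m := by
  have := (ZMod.intCast_eq_intCast_iff_dvd_sub k m 7).1 h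
  obtain ⟨j, hj⟩ := this
  have h7 : v ^ (7 : ℤ) = 1 := by exact_mod_cast hv
  have : m = k + 7 * j := by push_cast at hj; omega
  rw [this, zpow_add, zpow_mul, h7, one_zpow, mul_one]

/-- The graph of the map from the cube subgroup of `Aff` to `Q`. -/
def Gr (u v : Q) (huv : Commute u v) : Subgroup (Aff × Q) where
  carrier := {p | (3 : ℤ) ∣ p.1.n ∧ p.1.q.2.1 = 0 ∧
    ∃ k : ℤ, (k : ZMod 7) = p.1.q.2.2 ∧ p.2 = u ^ p.1.n * v ^ k}
  one_mem' := ⟨by simp, by simp, 0, by simp, by simp⟩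
  mul_mem' := by
    rintro ⟨x, q⟩ ⟨y, r⟩ ⟨h1, h2, k, h3, h4⟩ ⟨h5, h6, m, h7, h8⟩
    simp only at h1 h2 h3 h4 h5 h6 h7 h8
    refine ⟨by simpa using dvd_add h1 h5, by simp [h2, h6], k + m, ?_, ?_⟩
    · simp [h3, h7, hu7 h1]
    · simp only [Prod.snd_mul, Prod.fst_mul, mul_n, h4, h8, zpow_add]
      rw [mul_assoc, mul_assoc, ← mul_assoc (v ^ k), ← mul_assoc (u ^ y.n),
        (huv.zpow_zpow y.n k).eq]
  inv_mem' := by
    rintro ⟨x, q⟩ ⟨h1, h2, k, h3, h4⟩
    simp only at h1 h2 h3 h4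
    refine ⟨by simpa using h1, by simp [h2], -k, ?_, ?_⟩
    · have := hu7 ((dvd_neg).2 h1)
      simp only [Prod.fst_inv, inv_q, Prod.snd_neg, Prod.snd_mul, this, one_mul, Int.cast_neg, h3]
    · simp only [Prod.snd_inv, Prod.fst_inv, inv_n, h4, mul_inv_rev, zpow_neg]
      exact ((huv.zpow_zpow x.n k).inv_inv.eq).symm

theorem Gr_D {u v : Q} (huv : Commute u v) (k : ℤ) :
    ((D gen ^ 3) ^ k, (u ^ 3) ^ k) ∈ Gr u v huv := by
  rw [← Prod.pow_mk, ← Prod.pow_mk]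
  apply Subgroup.zpow_mem
  rw [Prod.pow_mk, D_pow]
  exact ⟨by simp, by simp, 0, by simp, by simp⟩

theorem Gr_T {u v : Q} (huv : Commute u v) (k : ℤ) :
    ((T gen ^ 3) ^ k, (v ^ 3) ^ k) ∈ Gr u v huv := by
  rw [← Prod.pow_mk, ← Prod.pow_mk]
  apply Subgroup.zpow_mem
  rw [Prod.pow_mk, T_pow]
  exact ⟨by simp, (by decide : ((3 : ℕ) : ZMod 3) = 0), 3, by simp, by simp⟩

theorem Gr_D_inv {u v : Q} (huv : Commute u v) (hv : v ^ 7 = 1) {m : Multiplicative ℤ} {q : Q}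
    (h : (D m, q) ∈ Gr u v huv) : ∃ k : ℤ, m = (gen ^ 3) ^ k ∧ q = (u ^ 3) ^ k := by
  obtain ⟨⟨k, hk⟩, -, j, hj, hq⟩ := h
  simp only [D_n, D_q, Prod.snd_zero] at hk hj hq
  refine ⟨k, ?_, ?_⟩
  · apply Multiplicative.toAdd.injective
    simp [hk, mul_comm]
  · rw [hq, hk, zpow_congr7 hv (m := 0) (by simpa using hj), zpow_mul]
    simp

theorem Gr_T_inv {u v : Q} (huv : Commute u v) (hv : v ^ 7 = 1) {m : Multiplicative ℤ} {q : Q}
    (h : (T m, q) ∈ Gr u v huv) : ∃ k : ℤ, m = (gen ^ 3) ^ k ∧ q = (v ^ 3) ^ k := by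
  obtain ⟨-, h3, j, hj, hq⟩ := h
  simp only [T_n, T_q, Prod.snd_intCast, Prod.fst_intCast] at h3 hj hq
  obtain ⟨k, hk⟩ := (ZMod.intCast_zmod_eq_zero_iff_dvd _ 3).1 h3
  refine ⟨k, ?_, ?_⟩
  · apply Multiplicative.toAdd.injective
    simp [hk, mul_comm]
  · rw [hq, zpow_congr7 hv hj, hk, zpow_mul]
    simp

theorem Gr_first_D {u v : Q} (huv : Commute u v) {y : Aff} {q : Q} (h : (y, q) ∈ Gr u v huv)
    {m z : Multiplicative ℤ} (hz : T z = y⁻¹ * D m) : ∃ k : ℤ, m = (gen ^ 3) ^ k := by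
  obtain ⟨⟨k, hk⟩, -, -⟩ := h
  have := congrArg Aff.n hz
  simp only [T_n, mul_n, inv_n, D_n] at this hk
  refine ⟨k, Multiplicative.toAdd.injective ?_⟩
  simp
  omega

theorem Gr_first_T {u v : Q} (huv : Commute u v) {y : Aff} {q : Q} (h : (y, q) ∈ Gr u v huv)
    {m z : Multiplicative ℤ} (hz : D z = y⁻¹ * T m) : ∃ k : ℤ, m = (gen ^ 3) ^ k := by
  obtain ⟨-, h3, -⟩ := h
  have h1 : y * D z = T m := by rw [hz]; simp
  have := congrArg (fun z : Aff => z.q.2.1) h1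
  simp only [mul_q, D_q, mul_zero, add_zero, T_q, Prod.snd_intCast, Prod.fst_intCast] at this h3
  rw [h3] at this
  obtain ⟨k, hk⟩ := (ZMod.intCast_zmod_eq_zero_iff_dvd _ 3).1 this.symm
  refine ⟨k, Multiplicative.toAdd.injective ?_⟩
  simp [hk, mul_comm]

end Pool.Agent.H744Z
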