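import Pool.Agent.H744Z.PP
import Pool.Agent.H744Z.HigAff

/-!
The subgroup of Higman's group generated by the cubes of the generators maps to every group
generated by four elements of order dividing seven in which cyclically adjacent ones commute.
-/

set_option autoImplicit false

namespace Pool.Agent.H744Z

open Monoid PushoutI Aff

/-- The two embeddings of the integers. -/
def φ1 : ∀ _ : Bool, Multiplicative ℤ →* Aff := fun i => if i then T else D

theorem φ1_inj : ∀ i, Function.Injective (φ1 i)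
  | true => T_inj
  | false => D_inj

/-- The amalgam of two affine groups. -/
abbrev A1 := PushoutI φ1

def ea : A1 := of (φ := φ1) true (D gen)
def eb : A1 := base φ1 gen
def ec : A1 := of (φ := φ1) false (T gen)

theorem of_T (m : Multiplicative ℤ) : of (φ := φ1) true (T m) = base φ1 m :=
  of_apply_eq_base φ1 true m

theorem of_D (m : Multiplicative ℤ) : of (φ := φ1) false (D m) = base φ1 m :=
  of_apply_eq_base φ1 false m

theorem rel_ab : ea⁻¹ * eb * ea = eb ^ 2 := by
  rw [ea, eb, ← of_T, ← map_inv, ← map_mul, ← map_mul, rel, map_pow]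

theorem rel_bc : eb⁻¹ * ec * eb = ec ^ 2 := by
  rw [ec, eb, ← of_D, ← map_inv, ← map_mul, ← map_mul, rel, map_pow]

variable {Q : Type*} [Group Q]

/-- The graph subgroups in the two factors. -/
def S1 (u v w : Q) (huv : Commute u v) (hvw : Commute v w) : Bool → Subgroup (A1 × Q)
  | true => (Gr u v huv).map ((of (φ := φ1) true).prodMap (MonoidHom.id Q))
  | false => (Gr v w hvw).map ((of (φ := φ1) false).prodMap (MonoidHom.id Q))

/-- The graph subgroup in the first amalgam. -/
def GA (u v w : Q) (huv : Commute u v) (hvw : Commute v w) : Subgroup (A1 × Q) :=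
  ⨆ i, S1 u v w huv hvw i

section level1

variable {u v w : Q} (huv : Commute u v) (hvw : Commute v w)

theorem GA_a (k : ℤ) : ((ea ^ 3) ^ k, (u ^ 3) ^ k) ∈ GA u v w huv hvw := by
  refine Subgroup.mem_iSup_of_mem true ⟨_, Gr_D huv k, ?_⟩
  simp [ea]

theorem GA_b (k : ℤ) : ((eb ^ 3) ^ k, (v ^ 3) ^ k) ∈ GA u v w huv hvw := by
  refine Subgroup.mem_iSup_of_mem true ⟨_, Gr_T huv k, ?_⟩
  simp [eb, of_T]

theorem GA_c (k : ℤ) : ((ec ^ 3) ^ k, (w ^ 3) ^ k) ∈ GA u v w huv hvw := by
  refine Subgroup.mem_iSup_of_mem false ⟨_, Gr_T hvw k, ?_⟩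
  simp [ec]

/-- The compatible system given by the graphs. -/
def sub1 (hv : v ^ 7 = 1) (hw : w ^ 7 = 1) (P : PP A1 Bool)
    (hA : ∀ i, P.A i = (of (φ := φ1) i).range) (hC : P.C = (base φ1).range) :
    PP.Sub (P.comap (MonoidHom.fst A1 Q)) where
  S := S1 u v w huv hvw
  S0 := Subgroup.zpowers (eb ^ 3, v ^ 3)
  le_A i := by
    cases i
    · rintro _ ⟨p, -, rfl⟩
      change _ ∈ P.A false
      rw [hA]; exact ⟨p.1, rfl⟩
    · rintro _ ⟨p, -, rfl⟩
      change _ ∈ P.A true
      rw [hA]; exact ⟨p.1, rfl⟩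
  le_C := by
    rw [Subgroup.zpowers_le]
    change _ ∈ P.C
    rw [hC]; exact ⟨gen ^ 3, by simp [eb]⟩
  le_S i := by
    rw [Subgroup.zpowers_le]
    cases i
    · refine ⟨_, Gr_D hvw 1, ?_⟩
      simp [eb, of_D]
    · refine ⟨_, Gr_T huv 1, ?_⟩
      simp [eb, of_T]
  inter i := by
    cases i
    · rintro _ ⟨⟨y, q⟩, hp, rfl⟩ hc
      change of (φ := φ1) false y ∈ P.C at hc
      rw [hC] at hc
      obtain ⟨z, rfl⟩ := of_mem_base φ1_inj hc
      obtain ⟨k, hk, hq⟩ := Gr_D_inv hvw hw (m := z) hp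
      refine ⟨k, ?_⟩
      simp only [MonoidHom.prodMap_def, MonoidHom.prod_apply, MonoidHom.coe_comp,
        Function.comp_apply, MonoidHom.coe_fst, MonoidHom.coe_snd, MonoidHom.id_apply,
        of_apply_eq_base, hq, hk, map_zpow, map_pow, eb]
      rfl
    · rintro _ ⟨⟨y, q⟩, hp, rfl⟩ hc
      change of (φ := φ1) true y ∈ P.C at hc
      rw [hC] at hc
      obtain ⟨z, rfl⟩ := of_mem_base φ1_inj hc
      obtain ⟨k, hk, hq⟩ := Gr_T_inv huv hv (m := z) hp
      refine ⟨k, ?_⟩
      simp only [MonoidHom.prodMap_def, MonoidHom.prod_apply, MonoidHom.coe_comp,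
        Function.comp_apply, MonoidHom.coe_fst, MonoidHom.coe_snd, MonoidHom.id_apply,
        of_apply_eq_base, hq, hk, map_zpow, map_pow, eb]
      rfl

theorem GA_func (hv : v ^ 7 = 1) (hw : w ^ 7 = 1) {q : Q}
    (h : ((1 : A1), q) ∈ GA u v w huv hvw) : q = 1 := by
  obtain ⟨P, hA, hC⟩ := exists_PP φ1_inj
  have := PP.mem_S0 (sub1 huv hvw hv hw P hA hC) h (by
    change (1 : A1) ∈ P.C
    exact P.C.one_mem)
  obtain ⟨k, hk⟩ := this
  have h1 : (eb ^ 3) ^ k = 1 := congrArg Prod.fst hk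
  have h2 : (v ^ 3) ^ k = q := congrArg Prod.snd hk
  rw [eb, ← map_pow, ← map_zpow, ← map_one (base φ1)] at h1
  have h3 := congrArg Multiplicative.toAdd (base_injective φ1_inj h1)
  have : k = 0 := by simpa using h3
  rw [← h2, this, zpow_zero]

variable {F : Type*} [Group F]

/-- The system given by the two cyclic factors of the free subgroup. -/
def subF (f1 f2 : F) (P : PP A1 Bool)
    (hA : ∀ i, P.A i = (of (φ := φ1) i).range) (hC : P.C = (base φ1).range) :
    PP.Sub (P.comap (MonoidHom.fst A1 F)) where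
  S i := if i then Subgroup.zpowers (ea, f1) else Subgroup.zpowers (ec, f2)
  S0 := ⊥
  le_A i := by
    cases i
    · simp only [Bool.false_eq_true, if_false, Subgroup.zpowers_le]
      change _ ∈ P.A false
      rw [hA]; exact ⟨_, rfl⟩
    · simp only [if_true, Subgroup.zpowers_le]
      change _ ∈ P.A true
      rw [hA]; exact ⟨_, rfl⟩
  le_C := bot_le
  le_S i := bot_le
  inter i := by
    cases i
    · simp only [Bool.false_eq_true, if_false]
      rintro _ ⟨k, rfl⟩ hc
      change ec ^ k ∈ P.C at hc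
      rw [hC, ec, ← map_zpow, ← map_zpow] at hc
      obtain ⟨z, hz⟩ := of_mem_base φ1_inj hc
      have := congrArg Multiplicative.toAdd (D_eq_T (k := z) hz).2
      have : k = 0 := by simpa using this
      simp [this]
    · simp only [if_true]
      rintro _ ⟨k, rfl⟩ hc
      change ea ^ k ∈ P.C at hc
      rw [hC, ea, ← map_zpow, ← map_zpow] at hc
      obtain ⟨z, hz⟩ := of_mem_base φ1_inj hc
      have := congrArg Multiplicative.toAdd (D_eq_T (m := z) hz.symm).1
      have : k = 0 := by simpa using this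
      simp [this]

theorem graph_mem (f1 f2 : F) (hF : Subgroup.closure {f1, f2} = ⊤) (ψ : F →* A1)
    (h1 : ψ f1 = ea) (h2 : ψ f2 = ec) (P : PP A1 Bool)
    (hA : ∀ i, P.A i = (of (φ := φ1) i).range) (hC : P.C = (base φ1).range) (x : F) :
    (ψ x, x) ∈ ⨆ i, (subF f1 f2 P hA hC).S i := by
  have hx : x ∈ Subgroup.closure ({f1, f2} : Set F) := by rw [hF]; trivial
  have : Subgroup.closure ({f1, f2} : Set F) ≤
      (⨆ i, (subF f1 f2 P hA hC).S i).comap (ψ.prod (MonoidHom.id F)) := by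
    rw [Subgroup.closure_le]
    rintro y (rfl | rfl)
    · refine Subgroup.mem_iSup_of_mem true ?_
      simp only [subF, if_true, MonoidHom.prod_apply, h1]
      exact Subgroup.mem_zpowers _
    · refine Subgroup.mem_iSup_of_mem false ?_
      simp only [subF, Bool.false_eq_true, if_false, MonoidHom.prod_apply, h2]
      exact Subgroup.mem_zpowers _
  exact this hx

theorem psi_inj (f1 f2 : F) (hF : Subgroup.closure {f1, f2} = ⊤) (ψ : F →* A1)
    (h1 : ψ f1 = ea) (h2 : ψ f2 = ec) : Function.Injective ψ := by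
  obtain ⟨P, hA, hC⟩ := exists_PP φ1_inj
  rw [injective_iff_map_eq_one]
  intro x hx
  have := PP.mem_S0 (subF f1 f2 P hA hC) (graph_mem f1 f2 hF ψ h1 h2 P hA hC x) (by
    change ψ x ∈ P.C
    rw [hx]; exact P.C.one_mem)
  exact congrArg Prod.snd (Subgroup.mem_bot.1 this)

/-- The graph subgroup over the free group. -/
def GF (f1 f2 : F) (u w : Q) : Subgroup (F × Q) :=
  Subgroup.closure {(f1 ^ 3, u ^ 3), (f2 ^ 3, w ^ 3)}

theorem GF_comm (f1 f2 : F) (u w : Q) : GF f1 f2 u w = GF f2 f1 w u := by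
  rw [GF, GF, Set.pair_comm]

theorem GF_to_GA (f1 f2 : F) (ψ : F →* A1) (h1 : ψ f1 = ea) (h2 : ψ f2 = ec) {x : F} {q : Q}
    (h : (x, q) ∈ GF f1 f2 u w) : (ψ x, q) ∈ GA u v w huv hvw := by
  have : GF f1 f2 u w ≤ (GA u v w huv hvw).comap (ψ.prodMap (MonoidHom.id Q)) := by
    rw [GF, Subgroup.closure_le]
    rintro y (rfl | rfl)
    · have := GA_a huv hvw 1
      simpa [h1] using this
    · have := GA_c huv hvw 1
      simpa [h2] using this
  exact this h

theorem GA_to_GF (hv : v ^ 7 = 1) (hw : w ^ 7 = 1)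
    (f1 f2 : F) (hF : Subgroup.closure {f1, f2} = ⊤) (ψ : F →* A1)
    (h1 : ψ f1 = ea) (h2 : ψ f2 = ec) {x : F} {q : Q}
    (h : (ψ x, q) ∈ GA u v w huv hvw) : (x, q) ∈ GF f1 f2 u w := by
  obtain ⟨P, hA, hC⟩ := exists_PP φ1_inj
  obtain ⟨j, hj⟩ := PP.exists_form _ (graph_mem f1 f2 hF ψ h1 h2 P hA hC x)
  have key : ∀ (j : Option Bool) (p : A1 × F), PP.Form (subF f1 f2 P hA hC) j p →
      ∀ q : Q, (p.1, q) ∈ GA u v w huv hvw → (p.2, q) ∈ GF f1 f2 u w := by
    intro j p hp
    induction hp with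
    | base p hp =>
      intro q hq
      have hp1 : p = 1 := Subgroup.mem_bot.1 hp
      subst hp1
      have := GA_func huv hvw hv hw hq
      subst this
      exact Subgroup.one_mem _
    | step i j p p' hp hpc hf hj ih =>
      intro q hq
      have hfst : P.fst p'.1 ≠ some i := by
        have := hf.fst_eq
        change P.fst p'.1 = j at this
        rw [this]; exact hj
      have hxA : p.1 ∈ P.A i := (subF f1 f2 P hA hC).le_A i hp
      obtain ⟨r, hr, hrc⟩ := PP.first_letter (sub1 huv hvw hv hw P hA hC) (i := i)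
        (x := (p.1, 1)) (g := (p'.1, q)) hxA hpc hfst (by simpa [GA, sub1] using hq)
      change r.1⁻¹ * p.1 ∈ P.C at hrc
      rw [hC] at hrc
      have fin : ∀ r0 : Q, (p.1, r0) ∈ GA u v w huv hvw → (p.2, r0) ∈ GF f1 f2 u w →
          ((p * p').2, q) ∈ GF f1 f2 u w := by
        intro r0 ha hb
        have h3 := ih (r0⁻¹ * q) (by
          have := Subgroup.mul_mem _ (Subgroup.inv_mem _ ha) hq
          simpa using this)
        have := Subgroup.mul_mem _ hb h3
        simpa using this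
      cases i
      · obtain ⟨⟨y, q'⟩, hy, rfl⟩ := hr
        simp only [subF, Bool.false_eq_true, if_false] at hp
        obtain ⟨k, rfl⟩ := hp
        change (of (φ := φ1) false y)⁻¹ * ec ^ k ∈ _ at hrc
        rw [ec, ← map_zpow, ← map_zpow, ← map_inv, ← map_mul] at hrc
        obtain ⟨z, hz⟩ := of_mem_base φ1_inj hrc
        obtain ⟨m, hm⟩ := Gr_first_T hvw hy hz
        have hk : k = 3 * m := by
          have := congrArg Multiplicative.toAdd hm
          simpa [mul_comm] using this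
        subst hk
        refine fin ((w ^ 3) ^ m) ?_ ?_
        · have := GA_c huv hvw m
          simpa [zpow_mul] using this
        · have : ((f2 ^ 3, w ^ 3) : F × Q) ^ m ∈ GF f1 f2 u w :=
            Subgroup.zpow_mem _ (Subgroup.subset_closure (by simp)) m
          simpa [zpow_mul] using this
      · obtain ⟨⟨y, q'⟩, hy, rfl⟩ := hr
        simp only [subF, if_true] at hp
        obtain ⟨k, rfl⟩ := hp
        change (of (φ := φ1) true y)⁻¹ * ea ^ k ∈ _ at hrc
        rw [ea, ← map_zpow, ← map_zpow, ← map_inv, ← map_mul] at hrc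
        obtain ⟨z, hz⟩ := of_mem_base φ1_inj hrc
        obtain ⟨m, hm⟩ := Gr_first_D huv hy hz
        have hk : k = 3 * m := by
          have := congrArg Multiplicative.toAdd hm
          simpa [mul_comm] using this
        subst hk
        refine fin ((u ^ 3) ^ m) ?_ ?_
        · have := GA_a huv hvw m
          simpa [zpow_mul] using this
        · have : ((f1 ^ 3, u ^ 3) : F × Q) ^ m ∈ GF f1 f2 u w :=
            Subgroup.zpow_mem _ (Subgroup.subset_closure (by simp)) m
          simpa [zpow_mul] using this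
  exact key j _ hj q h

end level1

section level2

abbrev FF := FreeGroup Bool

/-- The two embeddings of the free group. -/
def φ2 : ∀ _ : Bool, FF →* A1 := fun i =>
  FreeGroup.lift fun j => if i = j then ea else ec

theorem FF_top (i : Bool) :
    Subgroup.closure ({FreeGroup.of i, FreeGroup.of (!i)} : Set FF) = ⊤ := by
  rw [← FreeGroup.closure_range_of]
  congr 1
  ext x
  cases i <;> simp [or_comm]

theorem φ2_a (i : Bool) : φ2 i (FreeGroup.of i) = ea := by simp [φ2]

theorem φ2_c (i : Bool) : φ2 i (FreeGroup.of (!i)) = ec := by cases i <;> simp [φ2]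

theorem φ2_inj (i : Bool) : Function.Injective (φ2 i) :=
  psi_inj _ _ (FF_top i) _ (φ2_a i) (φ2_c i)

theorem func_push {A F : Type*} [Group A] [Group F] (φ : ∀ _ : Bool, F →* A)
    (hφ : ∀ i, Function.Injective (φ i)) (SA : Bool → Subgroup (A × Q)) (G0 : Subgroup (F × Q))
    (h1 : ∀ i x q, (φ i x, q) ∈ SA i ↔ (x, q) ∈ G0) (h2 : ∀ q, ((1 : F), q) ∈ G0 → q = 1) {q : Q}
    (h : ((1 : PushoutI φ), q) ∈
      ⨆ i, (SA i).map ((of (φ := φ) i).prodMap (MonoidHom.id Q))) : q = 1 := by
  obtain ⟨P, hA, hC⟩ := exists_PP hφ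
  let T : PP.Sub (P.comap (MonoidHom.fst (PushoutI φ) Q)) :=
    { S := fun i => (SA i).map ((of (φ := φ) i).prodMap (MonoidHom.id Q))
      S0 := G0.map ((base φ).prodMap (MonoidHom.id Q))
      le_A := fun i => by
        rintro _ ⟨p, -, rfl⟩
        change _ ∈ P.A i
        rw [hA]; exact ⟨p.1, rfl⟩
      le_C := by
        rintro _ ⟨p, -, rfl⟩
        change _ ∈ P.C
        rw [hC]; exact ⟨p.1, rfl⟩
      le_S := fun i => by
        rintro _ ⟨⟨x, q⟩, hp, rfl⟩
        refine ⟨_, (h1 i x q).2 hp, ?_⟩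
        simp [of_apply_eq_base]
      inter := fun i => by
        rintro _ ⟨⟨y, q⟩, hp, rfl⟩ hc
        change of (φ := φ) i y ∈ P.C at hc
        rw [hC] at hc
        obtain ⟨x, rfl⟩ := of_mem_base hφ hc
        exact ⟨_, (h1 i x q).1 hp, by simp [of_apply_eq_base]⟩ }
  have := PP.mem_S0 T h (by
    change (1 : PushoutI φ) ∈ P.C
    exact P.C.one_mem)
  obtain ⟨⟨x, q'⟩, hx, he⟩ := this
  have h3 : base φ x = 1 := congrArg Prod.fst he
  have h4 : q' = q := congrArg Prod.snd he
  subst h4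
  have h5 : x = 1 := base_injective hφ (by rw [h3, map_one])
  subst h5
  exact h2 _ hx

theorem exists_push {A F : Type} [Group A] [Group F] (φ : ∀ _ : Bool, F →* A)
    (hφ : ∀ i, Function.Injective (φ i)) :
    ∃ (Γ : Type) (_ : Group Γ) (e : Bool → A →* Γ), (∀ x, e true (φ true x) = e false (φ false x)) ∧
      ∀ (Q : Type) [Group Q] (SA : Bool → Subgroup (A × Q)) (G0 : Subgroup (F × Q)),
        (∀ i x q, (φ i x, q) ∈ SA i ↔ (x, q) ∈ G0) → (∀ q, ((1 : F), q) ∈ G0 → q = 1) →
        ∀ q : Q, ((1 : Γ), q) ∈ ⨆ i, (SA i).map ((e i).prodMap (MonoidHom.id Q)) → q = 1 :=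
  ⟨PushoutI φ, inferInstance, fun i => of (φ := φ) i,
    fun x => by rw [of_apply_eq_base, of_apply_eq_base],
    fun _ _ SA G0 h1 h2 _ h => func_push φ hφ SA G0 h1 h2 h⟩

theorem exists_model : ∃ (Γ : Type) (_ : Group Γ) (a b c d : Γ),
    a⁻¹ * b * a = b ^ 2 ∧ b⁻¹ * c * b = c ^ 2 ∧ c⁻¹ * d * c = d ^ 2 ∧ d⁻¹ * a * d = a ^ 2 ∧
    ∀ (Q : Type) [Group Q] (u v w z : Q), Commute u v → Commute v w → Commute w z → Commute z u →
      u ^ 7 = 1 → v ^ 7 = 1 → w ^ 7 = 1 → z ^ 7 = 1 → ∀ q : Q,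
      ((1 : Γ), q) ∈ Subgroup.closure ({(a ^ 3, u ^ 3), (b ^ 3, v ^ 3), (c ^ 3, w ^ 3),
        (d ^ 3, z ^ 3)} : Set (Γ × Q)) → q = 1 := by
  obtain ⟨Γ, inst, e, he, hfun⟩ := exists_push φ2 φ2_inj
  have ha : e true ea = e false ec := by
    have := he (FreeGroup.of true)
    rwa [φ2_a, show FreeGroup.of true = FreeGroup.of (!false) from rfl, φ2_c] at this
  have hc : e true ec = e false ea := by
    have := he (FreeGroup.of false)
    rwa [φ2_a, show FreeGroup.of false = FreeGroup.of (!true) from rfl, φ2_c] at this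
  refine ⟨Γ, inst, e true ea, e true eb, e true ec, e false eb, ?_, ?_, ?_, ?_, ?_⟩
  · rw [← map_inv, ← map_mul, ← map_mul, rel_ab, map_pow]
  · rw [← map_inv, ← map_mul, ← map_mul, rel_bc, map_pow]
  · rw [hc, ← map_inv, ← map_mul, ← map_mul, rel_ab, map_pow]
  · rw [ha, ← map_inv, ← map_mul, ← map_mul, rel_bc, map_pow]
  intro Q _ u v w z huv hvw hwz hzu hu hv hw hz q hq
  let SA : Bool → Subgroup (A1 × Q) := fun i =>
    if i then GA u v w huv hvw else GA w z u hwz hzu
  refine hfun Q SA (GF (FreeGroup.of true) (FreeGroup.of false) u w) ?_ ?_ q ?_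
  · intro i x q
    cases i
    · simp only [SA, Bool.false_eq_true, if_false]
      rw [GF_comm]
      exact ⟨GA_to_GF hwz hzu hz hu _ _ (FF_top false) _ (φ2_a false) (φ2_c false),
        GF_to_GA hwz hzu _ _ (φ2 false) (φ2_a false) (φ2_c false)⟩
    · simp only [SA, if_true]
      exact ⟨GA_to_GF huv hvw hv hw _ _ (FF_top true) _ (φ2_a true) (φ2_c true),
        GF_to_GA huv hvw _ _ (φ2 true) (φ2_a true) (φ2_c true)⟩
  · intro q hx
    have := GF_to_GA huv hvw _ _ (φ2 true) (φ2_a true) (φ2_c true) hx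
    rw [map_one] at this
    exact GA_func huv hvw hv hw this
  · refine (Subgroup.closure_le _).2 ?_ hq
    rintro y (rfl | rfl | rfl | rfl)
    · exact Subgroup.mem_iSup_of_mem true ⟨_, GA_a huv hvw 1, by simp⟩
    · exact Subgroup.mem_iSup_of_mem true ⟨_, GA_b huv hvw 1, by simp⟩
    · exact Subgroup.mem_iSup_of_mem true ⟨_, GA_c huv hvw 1, by simp⟩
    · exact Subgroup.mem_iSup_of_mem false ⟨_, GA_b hwz hzu 1, by simp⟩

end level2

end Pool.Agent.H744Z
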