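import Mathlib

/-!
Propagation of the seventh powers in a group with four elements acting cyclically by eighth powers.
-/

set_option autoImplicit false

namespace Pool.Agent.H744Z

variable {G : Type*} [Group G]

section vertex

variable {l m : G}

/-- Conjugates of `m` by powers of `l`. -/
def cn (l m : G) (k : ℤ) : G := l ^ k * m * (l ^ k)⁻¹

theorem cn_pred (h : l⁻¹ * m * l = m ^ 8) (k : ℤ) : cn l m (k - 1) = cn l m k ^ 8 := by
  rw [cn, cn, conj_pow, ← h, zpow_sub_one]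
  group

theorem cn_sub (h : l⁻¹ * m * l = m ^ 8) (k : ℤ) (j : ℕ) :
    cn l m (k - j) = cn l m k ^ (8 ^ j) := by
  induction j with
  | zero => simp
  | succ j ih =>
    rw [show k - ((j + 1 : ℕ) : ℤ) = (k - j) - 1 by push_cast; ring, cn_pred h, ih, ← pow_mul,
      pow_succ]

theorem cn_comm (h : l⁻¹ * m * l = m ^ 8) (k j : ℤ) : Commute (cn l m k) (cn l m j) := by
  rcases le_total k j with hkj | hkj
  · obtain ⟨n, hn⟩ := Int.eq_ofNat_of_zero_le (sub_nonneg.2 hkj)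
    rw [show k = j - n by omega, cn_sub h]
    exact (Commute.refl _).pow_left _
  · obtain ⟨n, hn⟩ := Int.eq_ofNat_of_zero_le (sub_nonneg.2 hkj)
    rw [show j = k - n by omega, cn_sub h]
    exact (Commute.refl _).pow_right _

theorem cn_zero : cn l m 0 = m := by simp [cn]

theorem cn_mem (h : l⁻¹ * m * l = m ^ 8) (K : Subgroup G) (hl : l ^ 7 ∈ K) {k : ℤ}
    (hk : cn l m k ^ 7 ∈ K) (j : ℤ) : cn l m j ^ 7 ∈ K := by
  have up : ∀ i : ℤ, cn l m i ^ 7 ∈ K → cn l m (i + 7) ^ 7 ∈ K := by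
    intro i hi
    have : cn l m (i + 7) = l ^ 7 * cn l m i * (l ^ 7)⁻¹ := by
      rw [cn, cn]; group
    rw [this, conj_pow]
    exact K.mul_mem (K.mul_mem hl hi) (K.inv_mem hl)
  have upn : ∀ n : ℕ, cn l m (k + 7 * n) ^ 7 ∈ K := by
    intro n
    induction n with
    | zero => simpa using hk
    | succ n ih =>
      have := up _ ih
      rwa [show k + 7 * (n : ℤ) + 7 = k + 7 * ((n + 1 : ℕ) : ℤ) by push_cast; ring] at this
  obtain ⟨n, hn⟩ := Int.eq_ofNat_of_zero_le (show 0 ≤ k + 7 * ((j - k).natAbs : ℕ) - j by omega)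
  rw [show j = (k + 7 * ((j - k).natAbs : ℕ)) - n by omega, cn_sub h, ← pow_mul, mul_comm (8 ^ n),
    pow_mul]
  exact K.pow_mem (upn _) _

/-- The vertex group. -/
def PV (l m : G) : Subgroup G := Subgroup.closure {l, m}

/-- The subgroup of the vertex group generated by seventh powers. -/
def DV (l m : G) : Subgroup G := Subgroup.closure {l ^ 7, m ^ 7}

theorem l_mem_PV : l ∈ PV l m := Subgroup.subset_closure (by simp)
theorem m_mem_PV : m ∈ PV l m := Subgroup.subset_closure (by simp)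
theorem l_mem_DV : l ^ 7 ∈ DV l m := Subgroup.subset_closure (by simp)
theorem m_mem_DV : m ^ 7 ∈ DV l m := Subgroup.subset_closure (by simp)

theorem cn_mem_DV (h : l⁻¹ * m * l = m ^ 8) (j : ℤ) : cn l m j ^ 7 ∈ DV l m :=
  cn_mem h _ l_mem_DV (k := 0) (by rw [cn_zero]; exact m_mem_DV) j

theorem cn_div (h : l⁻¹ * m * l = m ^ 8) (j : ℤ) : cn l m j * m⁻¹ ∈ DV l m := by
  have step : ∀ k : ℤ, cn l m (k - 1) * (cn l m k)⁻¹ ∈ DV l m := by
    intro k
    rw [cn_pred h, pow_succ, mul_inv_cancel_right]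
    exact cn_mem_DV h k
  induction j using Int.induction_on with
  | zero => simp [cn_zero]
  | succ n ih =>
    have := (DV l m).mul_mem ((DV l m).inv_mem (step (n + 1))) ih
    simpa using this
  | pred n ih =>
    have := (DV l m).mul_mem (step (-n)) ih
    simpa using this

theorem conj_cn (h : l⁻¹ * m * l = m ^ 8) {g : G} (hg : g ∈ PV l m) :
    ∀ k : ℤ, ∃ k' : ℤ, g * cn l m k * g⁻¹ = cn l m k' := by
  induction hg using Subgroup.closure_induction'' with
  | mem x hx =>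
    intro k
    rcases hx with rfl | rfl
    · exact ⟨k + 1, by rw [cn, cn]; group⟩
    · refine ⟨k, ?_⟩
      have := (cn_comm h 0 k).eq
      rw [cn_zero] at this
      rw [this, mul_inv_cancel_right]
  | inv_mem x hx =>
    intro k
    rcases hx with rfl | rfl
    · exact ⟨k - 1, by rw [cn, cn]; group⟩
    · refine ⟨k, ?_⟩
      have := (cn_comm h k 0).eq
      rw [cn_zero] at this
      rw [inv_inv, mul_assoc, this, inv_mul_cancel_left]
  | one => intro k; exact ⟨k, by simp⟩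
  | mul x y _ _ hx hy =>
    intro k
    obtain ⟨k1, h1⟩ := hy k
    obtain ⟨k2, h2⟩ := hx k1
    exact ⟨k2, by rw [← h2, ← h1]; group⟩

theorem comm_mem_DV (h : l⁻¹ * m * l = m ^ 8) (i j : ℤ) :
    l ^ i * m ^ j * (l ^ i)⁻¹ * (m ^ j)⁻¹ ∈ DV l m := by
  have h1 : l ^ i * m ^ j * (l ^ i)⁻¹ = cn l m i ^ j := by rw [cn, conj_zpow]
  have h2 : Commute (cn l m i) m⁻¹ := by
    have := cn_comm h i 0
    rw [cn_zero] at this
    exact this.inv_right
  rw [h1, ← inv_zpow, ← h2.mul_zpow]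
  exact (DV l m).zpow_mem (cn_div h i) j

theorem conj_DV (h : l⁻¹ * m * l = m ^ 8) {g : G} (hg : g ∈ PV l m) :
    ∀ d ∈ DV l m, g * d * g⁻¹ ∈ DV l m := by
  have gen : ∀ g ∈ PV l m, g * l ^ 7 * g⁻¹ ∈ DV l m → ∀ d ∈ DV l m, g * d * g⁻¹ ∈ DV l m := by
    intro g hg hl d hd
    have : DV l m ≤ (DV l m).comap (MulAut.conj g).toMonoidHom := by
      rw [DV, Subgroup.closure_le]
      rintro x (rfl | rfl)
      · exact hl
      · obtain ⟨k, hk⟩ := conj_cn h hg 0
        rw [cn_zero] at hk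
        change g * m ^ 7 * g⁻¹ ∈ DV l m
        rw [← conj_pow, hk]
        exact cn_mem_DV h k
    exact this hd
  have hm : ∀ j : ℤ, m ^ j * l ^ 7 * (m ^ j)⁻¹ ∈ DV l m := by
    intro j
    have := (DV l m).mul_mem ((DV l m).inv_mem (comm_mem_DV h 7 j)) l_mem_DV
    convert this using 1
    group
  induction hg using Subgroup.closure_induction'' with
  | mem x hx =>
    rcases hx with rfl | rfl
    · exact gen _ l_mem_PV (by convert l_mem_DV using 1; group)
    · exact gen _ m_mem_PV (by simpa using hm 1)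
  | inv_mem x hx =>
    rcases hx with rfl | rfl
    · exact gen _ ((PV _ _).inv_mem l_mem_PV) (by convert l_mem_DV using 1; group)
    · exact gen _ ((PV _ _).inv_mem m_mem_PV) (by simpa using hm (-1))
  | one => intro d hd; simpa using hd
  | mul x y _ _ hx hy =>
    intro d hd
    have := hx _ (hy d hd)
    convert this using 1
    group

/-- The conjugate of a seventh power lies in `K`. -/
def Ed (K : Subgroup G) (g l : G) : Prop := g * l ^ 7 * g⁻¹ ∈ K

/-- The conjugate of the subgroup generated by the seventh powers lies in `K`. -/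
def Ve (K : Subgroup G) (g l m : G) : Prop := ∀ d ∈ DV l m, g * d * g⁻¹ ∈ K

theorem Ve.intro (h : l⁻¹ * m * l = m ^ 8) {K : Subgroup G} (g : G) {g1 g2 : G}
    (h1 : g⁻¹ * g1 ∈ PV l m) (h2 : g⁻¹ * g2 ∈ PV l m) (e1 : Ed K g1 l) (e2 : Ed K g2 m) :
    Ve K g l m := by
  have h12 : g1⁻¹ * g2 ∈ PV l m := by
    have := (PV l m).mul_mem ((PV l m).inv_mem h1) h2
    convert this using 1
    group
  obtain ⟨k, hk⟩ := conj_cn h h12 0
  rw [cn_zero] at hk
  have hl : l ^ 7 ∈ K.comap (MulAut.conj g1).toMonoidHom := e1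
  have hk7 : cn l m k ^ 7 ∈ K.comap (MulAut.conj g1).toMonoidHom := by
    rw [← hk, conj_pow]
    change g1 * _ * g1⁻¹ ∈ K
    unfold Ed at e2
    convert e2 using 1
    group
  have hm := cn_mem h _ hl hk7 0
  rw [cn_zero] at hm
  have hD : DV l m ≤ K.comap (MulAut.conj g1).toMonoidHom := by
    rw [DV, Subgroup.closure_le]
    rintro x (rfl | rfl)
    · exact hl
    · exact hm
  intro d hd
  have := hD (conj_DV h ((PV l m).inv_mem h1) d hd)
  change g1 * _ * g1⁻¹ ∈ K at this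
  convert this using 1
  group

theorem Ve.left (h : l⁻¹ * m * l = m ^ 8) {K : Subgroup G} {g : G} (v : Ve K g l m) (g1 : G)
    (h1 : g⁻¹ * g1 ∈ PV l m) : Ed K g1 l := by
  have := v _ (conj_DV h h1 _ l_mem_DV)
  unfold Ed
  convert this using 1
  group

theorem Ve.right (h : l⁻¹ * m * l = m ^ 8) {K : Subgroup G} {g : G} (v : Ve K g l m) (g1 : G)
    (h1 : g⁻¹ * g1 ∈ PV l m) : Ed K g1 m := by
  have := v _ (conj_DV h h1 _ m_mem_DV)
  unfold Ed
  convert this using 1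
  group

theorem Ve.comm (h : l⁻¹ * m * l = m ^ 8) {K : Subgroup G} {g : G} (v : Ve K g l m) (i j : ℤ) :
    g * (l ^ i * m ^ j * (l ^ i)⁻¹ * (m ^ j)⁻¹) * g⁻¹ ∈ K :=
  v _ (comm_mem_DV h i j)

/-- `n` conjugates `K` into itself. -/
def Nm (K : Subgroup G) (n : G) : Prop := ∀ k ∈ K, n * k * n⁻¹ ∈ K

theorem Ed.mul {K : Subgroup G} {g n : G} (e : Ed K g l) (hn : Nm K n) : Ed K (n * g) l := by
  have := hn _ e
  unfold Ed
  convert this using 1
  group

theorem Nm.of_mem {K : Subgroup G} {n : G} (hn : n ∈ K) : Nm K n :=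
  fun _ hk => K.mul_mem (K.mul_mem hn hk) (K.inv_mem hn)

theorem Nm.mul {K : Subgroup G} {n n' : G} (hn : Nm K n) (hn' : Nm K n') : Nm K (n * n') := by
  intro k hk
  have := hn _ (hn' k hk)
  convert this using 1
  group

end vertex

section square

variable {α β γ δ : G} (hab : α⁻¹ * β * α = β ^ 8) (hbc : β⁻¹ * γ * β = γ ^ 8)
  (hcd : γ⁻¹ * δ * γ = δ ^ 8) (hda : δ⁻¹ * α * δ = α ^ 8)

theorem PV_mem2 (l m : G) (i j : ℤ) : l ^ i * m ^ j ∈ PV l m :=
  (PV l m).mul_mem ((PV l m).zpow_mem l_mem_PV i) ((PV l m).zpow_mem m_mem_PV j)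

theorem PV_mem2' (l m : G) (i j : ℤ) : m ^ i * l ^ j ∈ PV l m :=
  (PV l m).mul_mem ((PV l m).zpow_mem m_mem_PV i) ((PV l m).zpow_mem l_mem_PV j)

include hab hbc hcd hda in
/-- The commutators of the two free pairs. -/
theorem comm_su {K : Subgroup G} (ha : α ^ 7 ∈ K) (hb : β ^ 7 ∈ K) (hc : γ ^ 7 ∈ K)
    (hd : δ ^ 7 ∈ K) (i j : ℤ) (hi : Nm K (α ^ i * γ ^ i * (β * δ)⁻¹))
    (hj : Nm K (β ^ j * δ ^ j * (α * γ)⁻¹)) :
    (α ^ i * γ ^ i * (β ^ j * δ ^ j) * (α ^ i * γ ^ i)⁻¹ * (β ^ j * δ ^ j)⁻¹ ∈ K) ∧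
      Ve K (α ^ i) γ δ ∧ Ve K (α ^ i) β γ ∧ Ve K 1 α β := by
  have ea : Ed K 1 α := by simpa [Ed] using ha
  have eb : Ed K 1 β := by simpa [Ed] using hb
  have ec : Ed K 1 γ := by simpa [Ed] using hc
  have ed : Ed K 1 δ := by simpa [Ed] using hd
  have vab : Ve K 1 α β := Ve.intro hab 1 (by simp) (by simp) ea eb
  have vbc : Ve K 1 β γ := Ve.intro hbc 1 (by simp) (by simp) eb ec
  have vda : Ve K 1 δ α := Ve.intro hda 1 (by simp) (by simp) ed ea
  have v1 : Ve K (α ^ i) γ δ := by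
    refine Ve.intro hcd _ (g1 := α ^ i * γ ^ i * (β * δ)⁻¹ * β) (g2 := α ^ i) ?_ (by simp) ?_ ?_
    · convert PV_mem2 γ δ i (-1) using 1
      group
    · exact (vbc.right hbc β (by simpa using l_mem_PV)).mul hi
    · exact vda.left hda _ (by simpa using (PV δ α).zpow_mem m_mem_PV i)
  have v2 : Ve K (α ^ i) β γ :=
    Ve.intro hbc _ (g1 := α ^ i) (g2 := α ^ i) (by simp) (by simp)
      (vab.right hab _ (by simpa using (PV α β).zpow_mem l_mem_PV i)) (v1.left hcd _ (by simp))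
  have v3 : Ve K (β ^ j) γ δ := by
    refine Ve.intro hcd _ (g1 := β ^ j) (g2 := β ^ j * δ ^ j * (α * γ)⁻¹ * α) (by simp) ?_ ?_ ?_
    · convert PV_mem2' γ δ j (-1) using 1
      group
    · exact vbc.right hbc _ (by simpa using (PV β γ).zpow_mem l_mem_PV j)
    · exact (vda.left hda α (by simpa using m_mem_PV)).mul hj
  have v4 : Ve K (β ^ j) δ α :=
    Ve.intro hda _ (g1 := β ^ j) (g2 := β ^ j) (by simp) (by simp)
      (v3.right hcd _ (by simp)) (vab.left hab _ (by simpa using (PV α β).zpow_mem m_mem_PV j))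
  have k1 := vab.comm hab i j
  have v5 : Ve K (β ^ j * α ^ i) γ δ := by
    refine Ve.intro hcd _ (g1 := β ^ j * α ^ i) (g2 := β ^ j * α ^ i) (by simp) (by simp) ?_ ?_
    · have := (v2.right hbc (α ^ i * β ^ j)
        (by simpa using (PV β γ).zpow_mem l_mem_PV j)).mul (Nm.of_mem (K.inv_mem k1))
      convert this using 1
      group
    · exact v4.left hda _ (by simpa using (PV δ α).zpow_mem m_mem_PV i)
  refine ⟨?_, v1, v2, vab⟩
  have k2 := v2.comm hbc j i
  have k3 := v5.comm hcd i j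
  have k4 := v4.comm hda j i
  have := K.mul_mem (K.mul_mem (K.mul_mem (K.inv_mem k2) k1) k3) (K.inv_mem k4)
  convert this using 1
  group

/-- Congruence modulo `K` inside the normalizer. -/
def Cong (K : Subgroup G) : Subgroup (G × G) where
  carrier := {p | p.2 ∈ Subgroup.normalizer (K : Set G) ∧ p.1 * p.2⁻¹ ∈ K}
  one_mem' := ⟨Subgroup.one_mem _, by simp⟩
  mul_mem' := by
    rintro ⟨x, y⟩ ⟨z, w⟩ ⟨h1, h2⟩ ⟨h3, h4⟩
    refine ⟨Subgroup.mul_mem _ h1 h3, ?_⟩
    have := K.mul_mem h2 ((Subgroup.mem_normalizer_iff.1 h1 _).1 h4)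
    convert this using 1
    simp only [Prod.fst_mul, Prod.snd_mul]
    group
  inv_mem' := by
    rintro ⟨x, y⟩ ⟨h1, h2⟩
    refine ⟨Subgroup.inv_mem _ h1, ?_⟩
    have := (Subgroup.mem_normalizer_iff.1 (Subgroup.inv_mem _ h1) _).1 (K.inv_mem h2)
    convert this using 1
    simp only [Prod.fst_inv, Prod.snd_inv]
    group

theorem Nm.of_norm {K : Subgroup G} {n : G} (hn : n ∈ Subgroup.normalizer (K : Set G)) : Nm K n :=
  fun k hk => (Subgroup.mem_normalizer_iff.1 hn k).1 hk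

theorem norm_of_Nm {K : Subgroup G} {n : G} (h1 : Nm K n) (h2 : Nm K n⁻¹) :
    n ∈ Subgroup.normalizer (K : Set G) := by
  rw [Subgroup.mem_normalizer_iff]
  intro k
  refine ⟨h1 k, fun h => ?_⟩
  have := h2 _ h
  simpa [mul_assoc] using this

/-- `K` contains the seventh powers and is normalized by the three given elements. -/
def Good (α β γ δ x y t : G) (K : Subgroup G) : Prop :=
  α ^ 7 ∈ K ∧ β ^ 7 ∈ K ∧ γ ^ 7 ∈ K ∧ δ ^ 7 ∈ K ∧ x ∈ Subgroup.normalizer (K : Set G) ∧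
    y ∈ Subgroup.normalizer (K : Set G) ∧ t ∈ Subgroup.normalizer (K : Set G)

include hab hbc hcd hda in
theorem good_facts {x y t : G} (hx : x = α ^ (2 : ℤ) * γ ^ (2 : ℤ) * (α * γ)⁻¹)
    (hy : y = β ^ (2 : ℤ) * δ ^ (2 : ℤ) * (β * δ)⁻¹) (ht : t = α * γ * (β * δ)⁻¹)
    {K : Subgroup G} (hK : Good α β γ δ x y t K) :
    (Ed K (α * γ) α ∧ Ed K (α * γ) β ∧ Ed K (α * γ) γ ∧ Ed K (α * γ) δ) ∧
    (α * γ * x * (α * γ)⁻¹, t * x * t⁻¹) ∈ Cong K ∧ (α * γ * y * (α * γ)⁻¹, y) ∈ Cong K ∧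
    (α * γ * t * (α * γ)⁻¹, t) ∈ Cong K ∧ x * y * x⁻¹ * y⁻¹ ∈ K := by
  obtain ⟨ha, hb, hc, hd, nx, ny, nt⟩ := hK
  have n1 : Nm K (α ^ (1 : ℤ) * γ ^ (1 : ℤ) * (β * δ)⁻¹) := by
    simpa [ht] using Nm.of_norm nt
  have n2 : Nm K (α ^ (2 : ℤ) * γ ^ (2 : ℤ) * (β * δ)⁻¹) := by
    have := (Nm.of_norm nx).mul (Nm.of_norm nt)
    convert this using 1
    rw [hx, ht]; group
  have m1 : Nm K (β ^ (1 : ℤ) * δ ^ (1 : ℤ) * (α * γ)⁻¹) := by
    have := Nm.of_norm (Subgroup.inv_mem _ nt)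
    convert this using 1
    rw [ht]; group
  have m2 : Nm K (β ^ (2 : ℤ) * δ ^ (2 : ℤ) * (α * γ)⁻¹) := by
    have := (Nm.of_norm ny).mul (Nm.of_norm (Subgroup.inv_mem _ nt))
    convert this using 1
    rw [hy, ht]; group
  obtain ⟨c11, v1, v2, vab⟩ := comm_su hab hbc hcd hda ha hb hc hd 1 1 n1 m1
  obtain ⟨c21, -⟩ := comm_su hab hbc hcd hda ha hb hc hd 2 1 n2 m1
  obtain ⟨c12, -⟩ := comm_su hab hbc hcd hda ha hb hc hd 1 2 n1 m2
  obtain ⟨c22, -⟩ := comm_su hab hbc hcd hda ha hb hc hd 2 2 n2 m2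
  simp only [zpow_one] at c11 c21 c12 v1 v2
  generalize hs : α * γ = s at *
  generalize hu : β * δ = u at *
  generalize α ^ (2 : ℤ) * γ ^ (2 : ℤ) = s' at *
  generalize β ^ (2 : ℤ) * δ ^ (2 : ℤ) = u' at *
  have e4 : Ed K s δ := v1.right hcd _ (by rw [← hs]; simpa using l_mem_PV)
  have v6 : Ve K s δ α := by
    refine Ve.intro hda _ (g1 := s) (g2 := t * β) (by simp) ?_ e4 ?_
    · convert (PV δ α).inv_mem l_mem_PV using 1
      rw [ht, ← hu]; group
    · exact (vab.left hab β (by simpa using m_mem_PV)).mul (Nm.of_norm nt)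
  have nT := Nm.of_norm nt
  have nX := Nm.of_norm nx
  have nY := Nm.of_norm ny
  refine ⟨⟨v6.right hda _ (by simp), v2.left hbc _ (by rw [← hs]; simpa using m_mem_PV),
    v1.left hcd _ (by rw [← hs]; simpa using l_mem_PV), e4⟩, ⟨?_, ?_⟩, ⟨ny, ?_⟩, ⟨nt, ?_⟩, ?_⟩
  · exact Subgroup.mul_mem _ (Subgroup.mul_mem _ nt nx) (Subgroup.inv_mem _ nt)
  · have := nT _ (K.mul_mem (K.inv_mem c21) (nX _ c11))
    convert this using 1
    rw [hx, ht]; group
  · have := K.mul_mem c12 (nY _ (K.inv_mem c11))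
    convert this using 1
    rw [hy]; group
  · have := nT _ (K.inv_mem c11)
    convert this using 1
    rw [ht]; group
  · have k1 := nX _ (K.inv_mem c12)
    have k2 := nY _ c21
    have nm : Nm K (u' * s' * s⁻¹ * u⁻¹) := by
      have := ((Nm.of_mem (K.inv_mem (K.mul_mem k1 c22))).mul nX).mul nY
      convert this using 1
      rw [hx, hy]; group
    have k3 := nm _ c11
    have := K.mul_mem (K.mul_mem (K.mul_mem k1 c22) k3) (K.inv_mem k2)
    convert this using 1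
    rw [hx, hy]; group

include hab hbc hcd hda in
theorem good_main {x y t : G} (hx : x = α ^ (2 : ℤ) * γ ^ (2 : ℤ) * (α * γ)⁻¹)
    (hy : y = β ^ (2 : ℤ) * δ ^ (2 : ℤ) * (β * δ)⁻¹) (ht : t = α * γ * (β * δ)⁻¹)
    {K : Subgroup G} (hK : Good α β γ δ x y t K) (i : ℕ) :
    (t ^ i * x * (t ^ i)⁻¹) * y * (t ^ i * x * (t ^ i)⁻¹)⁻¹ * y⁻¹ ∈ K := by
  let K0 : Subgroup G := sInf {K | Good α β γ δ x y t K}
  have hle : ∀ K', Good α β γ δ x y t K' → K0 ≤ K' := fun K' h => sInf_le h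
  have hnorm : ∀ n : G, (∀ K', Good α β γ δ x y t K' → n ∈ Subgroup.normalizer (K' : Set G)) →
      n ∈ Subgroup.normalizer (K0 : Set G) := by
    intro n hn
    refine norm_of_Nm ?_ ?_
    · intro k hk
      exact Subgroup.mem_sInf.2 fun K' h => Nm.of_norm (hn K' h) k (hle K' h hk)
    · intro k hk
      exact Subgroup.mem_sInf.2 fun K' h =>
        Nm.of_norm (Subgroup.inv_mem _ (hn K' h)) k (hle K' h hk)
  have h0 : Good α β γ δ x y t K0 :=
    ⟨Subgroup.mem_sInf.2 fun K' h => h.1, Subgroup.mem_sInf.2 fun K' h => h.2.1,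
      Subgroup.mem_sInf.2 fun K' h => h.2.2.1, Subgroup.mem_sInf.2 fun K' h => h.2.2.2.1,
      hnorm _ fun K' h => h.2.2.2.2.1, hnorm _ fun K' h => h.2.2.2.2.2.1,
      hnorm _ fun K' h => h.2.2.2.2.2.2⟩
  obtain ⟨⟨e1, e2, e3, e4⟩, cx, cy, ct, c0⟩ := good_facts hab hbc hcd hda hx hy ht h0
  generalize α * γ = s at e1 e2 e3 e4 cx cy ct
  have cn : ∀ g g' : G, (g, g') ∈ Cong K0 → g ∈ Subgroup.normalizer (K0 : Set G) := by
    intro g g' h
    have := Subgroup.mul_mem _ (Subgroup.le_normalizer h.2) h.1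
    simpa using this
  have tr : ∀ g : G, s * g * s⁻¹ ∈ Subgroup.normalizer (K0 : Set G) →
      g ∈ Subgroup.normalizer (K0.comap (MulAut.conj s).toMonoidHom : Set G) := by
    intro g hg
    refine norm_of_Nm ?_ ?_
    · intro k hk
      have := Nm.of_norm hg _ hk
      change s * _ * s⁻¹ ∈ K0
      convert this using 1
      simp [mul_assoc]
    · intro k hk
      have := Nm.of_norm (Subgroup.inv_mem _ hg) _ hk
      change s * _ * s⁻¹ ∈ K0
      convert this using 1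
      simp [mul_assoc]
  have hs : Nm K0 s := by
    intro k hk
    exact hle (K0.comap (MulAut.conj s).toMonoidHom)
      ⟨e1, e2, e3, e4, tr _ (cn _ _ cx), tr _ (cn _ _ cy), tr _ (cn _ _ ct)⟩ hk
  refine hle K hK ?_
  induction i with
  | zero => simpa using c0
  | succ i ih =>
    have h1 := hs _ ih
    have hX := (Cong K0).mul_mem ((Cong K0).mul_mem ((Cong K0).pow_mem ct i) cx)
      ((Cong K0).inv_mem ((Cong K0).pow_mem ct i))
    have h2 := (Cong K0).mul_mem ((Cong K0).mul_mem ((Cong K0).mul_mem hX cy)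
      ((Cong K0).inv_mem hX)) ((Cong K0).inv_mem cy)
    have h3 := K0.mul_mem (K0.inv_mem h2.2) h1
    convert h3 using 1
    simp only [Prod.pow_mk, Prod.mk_mul_mk, Prod.inv_mk, conj_pow]
    group

end square

end Pool.Agent.H744Z
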