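import Pool.Agent.H744Z.HigEmb
import Pool.Agent.H744Z.HigProp

/-!
A finitely generated subgroup of Higman's group which is not finitely presented.
-/

set_option autoImplicit false

namespace Pool.Agent.H744Z

/-- Upper triangular matrices with diagonal `(1, 2 ^ k, 1)`. -/
@[ext] structure Hall where
  k : ℤ
  u : ℚ
  v : ℚ
  z : ℚ

namespace Hall

instance : Mul Hall :=
  ⟨fun x y => ⟨x.k + y.k, y.u + x.u * 2 ^ y.k, x.v + 2 ^ x.k * y.v, x.z + y.z + x.u * y.v⟩⟩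
instance : One Hall := ⟨⟨0, 0, 0, 0⟩⟩
instance : Inv Hall :=
  ⟨fun x => ⟨-x.k, -(x.u * 2 ^ (-x.k)), -(2 ^ (-x.k) * x.v), -x.z + x.u * 2 ^ (-x.k) * x.v⟩⟩

@[simp] theorem mul_k (x y : Hall) : (x * y).k = x.k + y.k := rfl
@[simp] theorem mul_u (x y : Hall) : (x * y).u = y.u + x.u * 2 ^ y.k := rfl
@[simp] theorem mul_v (x y : Hall) : (x * y).v = x.v + 2 ^ x.k * y.v := rfl
@[simp] theorem mul_z (x y : Hall) : (x * y).z = x.z + y.z + x.u * y.v := rfl
@[simp] theorem one_k : (1 : Hall).k = 0 := rfl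
@[simp] theorem one_u : (1 : Hall).u = 0 := rfl
@[simp] theorem one_v : (1 : Hall).v = 0 := rfl
@[simp] theorem one_z : (1 : Hall).z = 0 := rfl
@[simp] theorem inv_k (x : Hall) : (x⁻¹).k = -x.k := rfl
@[simp] theorem inv_u (x : Hall) : (x⁻¹).u = -(x.u * 2 ^ (-x.k)) := rfl
@[simp] theorem inv_v (x : Hall) : (x⁻¹).v = -(2 ^ (-x.k) * x.v) := rfl
@[simp] theorem inv_z (x : Hall) : (x⁻¹).z = -x.z + x.u * 2 ^ (-x.k) * x.v := rfl

instance : Group Hall := Group.ofLeftAxioms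
  (fun x y z => by
    apply Hall.ext
    · simp [add_assoc]
    · simp only [mul_u, mul_k, zpow_add₀ (two_ne_zero (α := ℚ))]; ring
    · simp only [mul_v, mul_k, zpow_add₀ (two_ne_zero (α := ℚ))]; ring
    · simp only [mul_z, mul_u, mul_v]; ring)
  (fun x => by apply Hall.ext <;> simp)
  (fun x => by
    have h : (2 : ℚ) ^ x.k ≠ 0 := zpow_ne_zero _ two_ne_zero
    apply Hall.ext
    · simp
    · simp only [mul_u, inv_u, one_u, zpow_neg]; field_simp; ring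
    · simp
    · simp only [mul_z, inv_z, inv_u, one_z]; ring)

/-- Central elements. -/
def zc (r : ℚ) : Hall := ⟨0, 0, 0, r⟩

theorem zc_conj (g : Hall) (r : ℚ) : g * zc r * g⁻¹ = zc r := by
  rw [mul_inv_eq_iff_eq_mul]
  apply Hall.ext <;> simp [zc, add_comm]

def xt : Hall := ⟨0, 1, 0, 0⟩
def yt : Hall := ⟨0, 0, 1, 0⟩
def tt : Hall := ⟨1, 0, 0, 0⟩

theorem tt_pow (i : ℕ) : tt ^ i = ⟨i, 0, 0, 0⟩ := by
  induction i with
  | zero => rfl
  | succ i ih => rw [pow_succ, ih]; apply Hall.ext <;> simp [tt]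

theorem comm_val (i : ℕ) :
    (tt ^ i * xt * (tt ^ i)⁻¹) * yt * (tt ^ i * xt * (tt ^ i)⁻¹)⁻¹ * yt⁻¹ =
      zc ((2 : ℚ) ^ (-(i : ℤ))) := by
  rw [tt_pow]
  apply Hall.ext <;> simp [xt, yt, zc]

/-- First affine action. -/
def p1 (e : Hall) (r : ℚ) : ℚ := (r + e.u) * 2 ^ (-e.k)

/-- Second affine action. -/
def p2 (e : Hall) (r : ℚ) : ℚ := 2 ^ e.k * r + e.v

theorem p1_mul (e f : Hall) (r : ℚ) : p1 (e * f) r = p1 e (p1 f r) := by
  have h : (2 : ℚ) ^ e.k ≠ 0 := zpow_ne_zero _ two_ne_zero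
  have h' : (2 : ℚ) ^ f.k ≠ 0 := zpow_ne_zero _ two_ne_zero
  simp only [p1, mul_u, mul_k, zpow_neg, zpow_add₀ (two_ne_zero (α := ℚ))]
  field_simp
  ring

theorem p2_mul (e f : Hall) (r : ℚ) : p2 (e * f) r = p2 e (p2 f r) := by
  simp only [p2, mul_v, mul_k, zpow_add₀ (two_ne_zero (α := ℚ))]
  ring

theorem p1_one (r : ℚ) : p1 1 r = r := by simp [p1]
theorem p2_one (r : ℚ) : p2 1 r = r := by simp [p2]

theorem central (e : Hall) (h1 : ∀ r, p1 e r = r) (h2 : ∀ r, p2 e r = r) : e = zc e.z := by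
  have a := h1 0
  have b := h2 0
  have c := h2 1
  have h : (2 : ℚ) ^ (-e.k) ≠ 0 := zpow_ne_zero _ two_ne_zero
  simp only [p1, p2, zero_add, mul_zero, mul_eq_zero, h, or_false, mul_one] at a b c
  rw [b, add_zero] at c
  have : e.k = 0 := (zpow_eq_one_iff_right₀ (by norm_num) (by norm_num)).1 c
  apply Hall.ext <;> simp [zc, *]

end Hall

open Hall

/-- A finitely presented image forces bounded denominators in the central kernel. -/
theorem bounded_den {H : Type*} [Group H] (S : Set (H × Hall)) (hS : S.Finite)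
    (hz : ∀ e : Hall, ((1 : H), e) ∈ Subgroup.closure S → e = zc e.z)
    (n : ℕ) (rels : Finset (FreeGroup (Fin n)))
    (φ : PresentedGroup (rels : Set (FreeGroup (Fin n))) ≃*
      ((Subgroup.closure S).map (MonoidHom.fst H Hall))) :
    ∃ D : ℕ, 0 < D ∧ ∀ r : ℚ, ((1 : H), zc r) ∈ Subgroup.closure S → ∃ m : ℤ, D * r = m := by
  classical
  let π : FreeGroup (Fin n) →* H :=
    ((Subgroup.subtype _).comp φ.toMonoidHom).comp (PresentedGroup.mk _)
  have hl : ∀ i : Fin n, ∃ p ∈ Subgroup.closure S, p.1 = π (FreeGroup.of i) := by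
    intro i
    obtain ⟨p, hp, he⟩ := (φ (PresentedGroup.mk _ (FreeGroup.of i))).2
    exact ⟨p, hp, he⟩
  choose lf hlf hlf1 using hl
  let Θ : FreeGroup (Fin n) →* H × Hall := FreeGroup.lift lf
  have hΘ1 : ∀ w, (Θ w).1 = π w := by
    have : (MonoidHom.fst H Hall).comp Θ = π := by
      apply FreeGroup.ext_hom
      intro i
      simp [Θ, hlf1]
    intro w
    exact DFunLike.congr_fun this w
  have hΘS : ∀ w, Θ w ∈ Subgroup.closure S := by
    have : Θ.range ≤ Subgroup.closure S := by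
      rw [FreeGroup.range_lift_eq_closure, Subgroup.closure_le]
      rintro _ ⟨i, rfl⟩
      exact hlf i
    exact fun w => this ⟨w, rfl⟩
  have hker : ∀ w, π w = 1 ↔ w ∈ Subgroup.normalClosure (rels : Set (FreeGroup (Fin n))) := by
    intro w
    rw [← PresentedGroup.mk_eq_one_iff]
    simp [π]
  have hw : ∀ s : H × Hall, ∃ w, s ∈ S → π w = s.1 := by
    intro s
    by_cases hs : s ∈ S
    · obtain ⟨g, hg⟩ := φ.surjective ⟨s.1, s, Subgroup.subset_closure hs, rfl⟩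
      obtain ⟨w, rfl⟩ := PresentedGroup.mk_surjective _ g
      exact ⟨w, fun _ => by simp [π, hg]⟩
    · exact ⟨1, fun h => absurd h hs⟩
  choose ws hws using hw
  let B : Finset ℚ := rels.image (fun ρ => (Θ ρ).2.z) ∪
    hS.toFinset.image (fun s => ((Θ (ws s))⁻¹ * s).2.z)
  let D : ℕ := ∏ b ∈ B, b.den
  have hD : ∀ b ∈ B, ∃ m : ℤ, D * b = m := by
    intro b hb
    obtain ⟨c, hc⟩ := Finset.dvd_prod_of_mem (fun b : ℚ => b.den) hb
    refine ⟨c * b.num, ?_⟩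
    have h1 : (D : ℚ) = b.den * c := by exact_mod_cast hc
    rw [h1, mul_comm (b.den : ℚ), mul_assoc, Rat.den_mul_eq_num]
    push_cast; ring
  let J : Subgroup (H × Hall) :=
    { carrier := {p | p.1 = 1 ∧ ∃ r : ℚ, p.2 = zc r ∧ ∃ m : ℤ, D * r = m}
      one_mem' := ⟨rfl, 0, rfl, 0, by simp⟩
      mul_mem' := by
        rintro ⟨a, e⟩ ⟨b, f⟩ ⟨h1, r, h2, m, h3⟩ ⟨h4, r', h5, m', h6⟩
        simp only at h1 h2 h4 h5
        refine ⟨by simp [h1, h4], r + r', ?_, m + m', by rw [mul_add, h3, h6]; push_cast; ring⟩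
        simp only [Prod.snd_mul, h2, h5]
        apply Hall.ext <;> simp [zc]
      inv_mem' := by
        rintro ⟨a, e⟩ ⟨h1, r, h2, m, h3⟩
        simp only at h1 h2
        refine ⟨by simp [h1], -r, ?_, -m, by rw [mul_neg, h3]; push_cast; ring⟩
        simp only [Prod.snd_inv, h2]
        apply Hall.ext <;> simp [zc] }
  have hJn : J.Normal := ⟨by
    rintro ⟨a, e⟩ ⟨h1, r, h2, h3⟩ ⟨g, f⟩
    simp only at h1 h2
    refine ⟨by simp [h1], r, ?_, h3⟩
    simp only [Prod.snd_mul, Prod.snd_inv, h2, zc_conj]⟩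
  have hmemJ : ∀ p ∈ Subgroup.closure S, p.1 = 1 → p.2.z ∈ B → p ∈ J := by
    rintro ⟨a, e⟩ hp h1 hb
    simp only at h1
    subst h1
    exact ⟨rfl, e.z, hz e hp, hD _ hb⟩
  have hrel : ∀ w, π w = 1 → Θ w ∈ J := by
    intro w hw
    have : Subgroup.normalClosure (rels : Set (FreeGroup (Fin n))) ≤ J.comap Θ := by
      apply Subgroup.normalClosure_le_normal
      intro ρ hρ
      refine hmemJ _ (hΘS ρ) ?_ ?_
      · rw [hΘ1, hker]; exact Subgroup.subset_normalClosure hρ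
      · exact Finset.mem_union_left _ (Finset.mem_image_of_mem _ hρ)
    exact this ((hker w).1 hw)
  have hle : Subgroup.closure S ≤ Θ.range ⊔ J := by
    rw [Subgroup.closure_le]
    intro s hs
    have h1 : (Θ (ws s))⁻¹ * s ∈ J := by
      refine hmemJ _ (Subgroup.mul_mem _ (Subgroup.inv_mem _ (hΘS _))
        (Subgroup.subset_closure hs)) ?_ ?_
      · simp [hΘ1, hws s hs]
      · exact Finset.mem_union_right _
          (Finset.mem_image_of_mem (fun s => ((Θ (ws s))⁻¹ * s).2.z) (by simpa using hs))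
    have := Subgroup.mul_mem_sup (S := Θ.range) (T := J) ⟨ws s, rfl⟩ h1
    simpa using this
  refine ⟨D, Finset.prod_pos fun b _ => b.den_pos, fun r hr => ?_⟩
  obtain ⟨_, ⟨w, rfl⟩, j, hj, he⟩ := Subgroup.mem_sup_of_normal_right.1 (hle hr)
  have h1 : π w = 1 := by
    have := congrArg Prod.fst he
    rw [Prod.fst_mul, hj.1, mul_one, hΘ1] at this
    exact this
  have h2 := J.mul_mem (hrel w h1) hj
  rw [he] at h2
  obtain ⟨-, r', h3, h4⟩ := h2
  have : r = r' := congrArg Hall.z h3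
  rwa [this]

/-- The permutation group used for the finite order images. -/
abbrev WW := Equiv.Perm (ZMod 7 × ℚ)

/-- The cyclic shift. -/
def sg : WW := Equiv.prodCongrLeft fun _ : ℚ => Equiv.addRight (1 : ZMod 7)

/-- Fibre maps. -/
def fib (j : ZMod 7) : Equiv.Perm ℚ :=
  if j = 4 then Equiv.mulRight₀ (1 / 2) (by norm_num)
  else if j = 1 then (Equiv.mulRight₀ (1 / 2) (by norm_num)).trans (Equiv.addRight 1) else 1

def gg : WW := Equiv.prodCongrRight fib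

def cg : WW := gg * sg⁻¹ * gg⁻¹

theorem sg_pow (k : ℕ) (j : ZMod 7) (r : ℚ) : (sg ^ k) (j, r) = (j + k, r) := by
  induction k with
  | zero => simp
  | succ k ih =>
    rw [pow_succ', Equiv.Perm.mul_apply, ih]
    simp [sg, add_assoc]

theorem sg7 : sg ^ 7 = 1 := by
  ext ⟨j, r⟩ : 1
  rw [sg_pow]
  have : ((7 : ℕ) : ZMod 7) = 0 := by decide
  rw [this, add_zero]
  rfl

theorem cg7 : cg ^ 7 = 1 := by rw [cg, conj_pow, inv_pow, sg7]; simp

theorem sc_pow (k : ℕ) (r : ℚ) : (sg ^ k * cg ^ k) (0, r) = (0, fib (-k) r) := by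
  rw [cg, conj_pow, inv_pow]
  have h0 : gg⁻¹ (0, r) = (0, r) := by
    rw [Equiv.Perm.inv_eq_iff_eq]
    have : fib 0 = 1 := by
      rw [fib, if_neg (by decide), if_neg (by decide)]
    simp [gg, this]
  have h1 : (sg ^ k)⁻¹ (0, r) = (-(k : ZMod 7), r) := by
    rw [Equiv.Perm.inv_eq_iff_eq, sg_pow]
    simp
  simp only [Equiv.Perm.mul_apply, h0, h1]
  have h2 : gg (-k, r) = (-(k : ZMod 7), fib (-k) r) := by simp [gg]
  rw [h2, sg_pow]
  simp

theorem s1_val (r : ℚ) : (sg ^ 3 * cg ^ 3) (0, r) = (0, r * (1 / 2)) := by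
  rw [sc_pow, fib, if_pos (by decide)]
  rfl

theorem s2_val (r : ℚ) :
    ((sg ^ 3) ^ (2 : ℤ) * (cg ^ 3) ^ (2 : ℤ)) (0, r) = (0, r * (1 / 2) + 1) := by
  rw [zpow_ofNat, zpow_ofNat, ← pow_mul, ← pow_mul, sc_pow, fib, if_neg (by decide),
    if_pos (by decide)]
  rfl

theorem s1_inv (r : ℚ) : (sg ^ 3 * cg ^ 3)⁻¹ (0, r) = (0, r * 2) := by
  rw [Equiv.Perm.inv_eq_iff_eq, s1_val]
  congr 1
  ring

theorem exists_perm : ∃ A C : WW, A ^ 7 = 1 ∧ C ^ 7 = 1 ∧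
    (∀ r : ℚ, (A ^ 3 * C ^ 3) (0, r) = (0, r * (1 / 2))) ∧
    (∀ r : ℚ, (A ^ 3 * C ^ 3)⁻¹ (0, r) = (0, r * 2)) ∧
    (∀ r : ℚ, ((A ^ 3) ^ (2 : ℤ) * (C ^ 3) ^ (2 : ℤ) * (A ^ 3 * C ^ 3)⁻¹) (0, r) = (0, r + 1)) := by
  refine ⟨sg, cg, sg7, cg7, s1_val, s1_inv, fun r => ?_⟩
  rw [Equiv.Perm.mul_apply, s1_inv, s2_val]
  congr 1
  ring

/-- Compatibility of permutations with the two affine actions. -/
def Comp : Subgroup ((WW × WW) × Hall) where
  carrier := {p | (∀ r, p.1.1 (0, r) = (0, p1 p.2 r)) ∧ ∀ r, p.1.2 (0, r) = (0, p2 p.2 r)}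
  one_mem' := ⟨fun r => by simp [p1_one], fun r => by simp [p2_one]⟩
  mul_mem' := by
    rintro ⟨⟨a, b⟩, e⟩ ⟨⟨c, d⟩, f⟩ ⟨h1, h2⟩ ⟨h3, h4⟩
    simp only at h1 h2 h3 h4
    exact ⟨fun r => by simp [h1, h3, p1_mul], fun r => by simp [h2, h4, p2_mul]⟩
  inv_mem' := by
    rintro ⟨⟨a, b⟩, e⟩ ⟨h1, h2⟩
    simp only at h1 h2
    refine ⟨fun r => ?_, fun r => ?_⟩
    · simp only [Prod.fst_inv, Prod.snd_inv]
      rw [Equiv.Perm.inv_eq_iff_eq, h1, ← p1_mul, mul_inv_cancel, p1_one]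
    · simp only [Prod.fst_inv, Prod.snd_inv]
      rw [Equiv.Perm.inv_eq_iff_eq, h2, ← p2_mul, mul_inv_cancel, p2_one]

theorem rel3 {G : Type*} [Group G] {a b : G} (h : a⁻¹ * b * a = b ^ 2) :
    (a ^ 3)⁻¹ * b ^ 3 * a ^ 3 = (b ^ 3) ^ 8 := by
  have h1 : ∀ k : ℕ, a⁻¹ * b ^ k * a = b ^ (2 * k) := by
    intro k
    have := conj_pow (a := a⁻¹) (b := b) (i := k)
    rw [inv_inv] at this
    rw [← this, h, pow_mul]
  calc (a ^ 3)⁻¹ * b ^ 3 * a ^ 3 = a⁻¹ * (a⁻¹ * (a⁻¹ * b ^ 3 * a) * a) * a := by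
        rw [pow_three a]; group
    _ = (b ^ 3) ^ 8 := by rw [h1, h1, h1, ← pow_mul]

theorem not_fp {H : Type} [Group H] (a b c d : H) (hab : a⁻¹ * b * a = b ^ 2)
    (hbc : b⁻¹ * c * b = c ^ 2) (hcd : c⁻¹ * d * c = d ^ 2) (hda : d⁻¹ * a * d = a ^ 2)
    (huniv : ∀ (Γ : Type) [Group Γ] (a' b' c' d' : Γ), a'⁻¹ * b' * a' = b' ^ 2 →
      b'⁻¹ * c' * b' = c' ^ 2 → c'⁻¹ * d' * c' = d' ^ 2 → d'⁻¹ * a' * d' = a' ^ 2 →
      ∃ f : H →* Γ, f a = a' ∧ f b = b' ∧ f c = c' ∧ f d = d') :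
    ∃ K : Subgroup H, K.FG ∧ ¬ ∃ (n : ℕ) (rels : Finset (FreeGroup (Fin n))),
      Nonempty (PresentedGroup (rels : Set (FreeGroup (Fin n))) ≃* K) := by
  classical
  obtain ⟨Γ, inst, a', b', c', d', r1, r2, r3, r4, hfun⟩ := exists_model
  obtain ⟨f, fa, fb, fc, fd⟩ := huniv Γ a' b' c' d' r1 r2 r3 r4
  obtain ⟨A, C, hA7, hC7, hs1, hs2, hs3⟩ := exists_perm
  let u : WW × WW := (A, 1)
  let v : WW × WW := (1, A)
  let w : WW × WW := (C, 1)
  let z : WW × WW := (1, C)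
  let Δ : Subgroup (H × (WW × WW)) :=
    Subgroup.closure {(a ^ 3, u ^ 3), (b ^ 3, v ^ 3), (c ^ 3, w ^ 3), (d ^ 3, z ^ 3)}
  have hu : u ^ 7 = 1 := by simp [u, hA7]
  have hv : v ^ 7 = 1 := by simp [v, hA7]
  have hw : w ^ 7 = 1 := by simp [w, hC7]
  have hz : z ^ 7 = 1 := by simp [z, hC7]
  have hΔ : ∀ q, ((1 : H), q) ∈ Δ → q = 1 := by
    intro q hq
    refine hfun (WW × WW) u v w z (by simp [u, v, Commute, SemiconjBy])
      (by simp [v, w, Commute, SemiconjBy]) (by simp [w, z, Commute, SemiconjBy])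
      (by simp [z, u, Commute, SemiconjBy]) hu hv hw hz q ?_
    have : Δ ≤ (Subgroup.closure ({(a' ^ 3, u ^ 3), (b' ^ 3, v ^ 3), (c' ^ 3, w ^ 3),
        (d' ^ 3, z ^ 3)} : Set (Γ × (WW × WW)))).comap (f.prodMap (MonoidHom.id _)) := by
      rw [Subgroup.closure_le]
      rintro y (rfl | rfl | rfl | rfl) <;> apply Subgroup.subset_closure <;>
        simp [fa, fb, fc, fd]
    have h2 := this hq
    simpa using h2
  have ma : (a ^ 3, u ^ 3) ∈ Δ := Subgroup.subset_closure (by simp)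
  have mb : (b ^ 3, v ^ 3) ∈ Δ := Subgroup.subset_closure (by simp)
  have mc : (c ^ 3, w ^ 3) ∈ Δ := Subgroup.subset_closure (by simp)
  have md : (d ^ 3, z ^ 3) ∈ Δ := Subgroup.subset_closure (by simp)
  have hab' := rel3 hab
  have hbc' := rel3 hbc
  have hcd' := rel3 hcd
  have hda' := rel3 hda
  generalize a ^ 3 = α at *
  generalize b ^ 3 = β at *
  generalize c ^ 3 = γ at *
  generalize d ^ 3 = δ at *
  obtain ⟨x, hx⟩ : ∃ x, x = α ^ (2 : ℤ) * γ ^ (2 : ℤ) * (α * γ)⁻¹ := ⟨_, rfl⟩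
  obtain ⟨y, hy⟩ : ∃ y, y = β ^ (2 : ℤ) * δ ^ (2 : ℤ) * (β * δ)⁻¹ := ⟨_, rfl⟩
  obtain ⟨t, ht⟩ : ∃ t, t = α * γ * (β * δ)⁻¹ := ⟨_, rfl⟩
  let S : Set (H × Hall) :=
    {(x, xt), (y, yt), (t, tt), (α ^ 7, 1), (β ^ 7, 1), (γ ^ 7, 1), (δ ^ 7, 1)}
  have hS : S.Finite := Set.toFinite _
  let TT : Subgroup (H × Hall) :=
    { carrier := {p | ∃ q, (p.1, q) ∈ Δ ∧ (q, p.2) ∈ Comp}
      one_mem' := ⟨1, Δ.one_mem, Comp.one_mem⟩
      mul_mem' := by
        rintro p p' ⟨q, h1, h2⟩ ⟨q', h3, h4⟩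
        exact ⟨q * q', Δ.mul_mem h1 h3, Comp.mul_mem h2 h4⟩
      inv_mem' := by
        rintro p ⟨q, h1, h2⟩
        exact ⟨q⁻¹, Δ.inv_mem h1, Comp.inv_mem h2⟩ }
  have pw : ∀ (g : H) (q : WW × WW), q ^ 7 = 1 → (g, q ^ 3) ∈ Δ → (g ^ 7, (1 : Hall)) ∈ TT := by
    intro g q hq h
    refine ⟨1, ?_, Comp.one_mem⟩
    have := Δ.pow_mem h 7
    rwa [Prod.pow_mk, ← pow_mul, mul_comm, pow_mul, hq, one_pow] at this
  have hT : Subgroup.closure S ≤ TT := by
    rw [Subgroup.closure_le]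
    rintro p (rfl | rfl | rfl | rfl | rfl | rfl | rfl)
    · refine ⟨(u ^ 3) ^ (2 : ℤ) * (w ^ 3) ^ (2 : ℤ) * (u ^ 3 * w ^ 3)⁻¹, by
        rw [hx]; exact Δ.mul_mem (Δ.mul_mem (Δ.zpow_mem ma 2) (Δ.zpow_mem mc 2))
          (Δ.inv_mem (Δ.mul_mem ma mc)), fun r => ?_, fun r => ?_⟩
      · simp only [u, w, Prod.pow_mk, Prod.mk_mul_mk, Prod.inv_mk, hs3]
        simp [p1, xt]
      · simp [u, w, p2, xt]
    · refine ⟨(v ^ 3) ^ (2 : ℤ) * (z ^ 3) ^ (2 : ℤ) * (v ^ 3 * z ^ 3)⁻¹, by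
        rw [hy]; exact Δ.mul_mem (Δ.mul_mem (Δ.zpow_mem mb 2) (Δ.zpow_mem md 2))
          (Δ.inv_mem (Δ.mul_mem mb md)), fun r => ?_, fun r => ?_⟩
      · simp [v, z, p1, yt]
      · simp only [v, z, Prod.pow_mk, Prod.mk_mul_mk, Prod.inv_mk, hs3]
        simp [p2, yt]
    · refine ⟨u ^ 3 * w ^ 3 * (v ^ 3 * z ^ 3)⁻¹, by
        rw [ht]; exact Δ.mul_mem (Δ.mul_mem ma mc) (Δ.inv_mem (Δ.mul_mem mb md)),
        fun r => ?_, fun r => ?_⟩
      · simp only [u, v, w, z, Prod.pow_mk, Prod.mk_mul_mk, Prod.inv_mk, one_pow, mul_one,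
          inv_one, hs1]
        simp [p1, tt]
      · simp only [u, v, w, z, Prod.pow_mk, Prod.mk_mul_mk, Prod.inv_mk, one_pow, one_mul, hs2]
        simp [p2, tt, mul_comm]
    · exact pw _ _ hu ma
    · exact pw _ _ hv mb
    · exact pw _ _ hw mc
    · exact pw _ _ hz md
  have hcen : ∀ e : Hall, ((1 : H), e) ∈ Subgroup.closure S → e = zc e.z := by
    intro e he
    obtain ⟨q, h1, h2, h3⟩ := hT he
    have := hΔ q h1
    subst this
    refine central e (fun r => ?_) (fun r => ?_)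
    · exact (congrArg Prod.snd (h2 r)).symm
    · exact (congrArg Prod.snd (h3 r)).symm
  refine ⟨(Subgroup.closure S).map (MonoidHom.fst H Hall), ?_, ?_⟩
  · exact (Subgroup.fg_iff _).2 ⟨_, (MonoidHom.map_closure _ S).symm, hS.image _⟩
  rintro ⟨n, rels, ⟨φ⟩⟩
  obtain ⟨D, hD, hden⟩ := bounded_den S hS hcen n rels φ
  let K : Subgroup H := (Subgroup.closure S).comap (MonoidHom.inl H Hall)
  have nK : ∀ (g : H) (e : Hall), (g, e) ∈ Subgroup.closure S →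
      g ∈ Subgroup.normalizer (K : Set H) := by
    have h1 : ∀ (g : H) (e : Hall), (g, e) ∈ Subgroup.closure S → Nm K g := by
      intro g e h k hk
      have := Subgroup.mul_mem _ (Subgroup.mul_mem _ h hk) (Subgroup.inv_mem _ h)
      simpa [K] using this
    intro g e h
    exact norm_of_Nm (h1 g e h) (h1 _ _ (Subgroup.inv_mem _ h))
  have mx : (x, xt) ∈ Subgroup.closure S := Subgroup.subset_closure (by simp [S])
  have my : (y, yt) ∈ Subgroup.closure S := Subgroup.subset_closure (by simp [S])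
  have mt : (t, tt) ∈ Subgroup.closure S := Subgroup.subset_closure (by simp [S])
  have hK : Good α β γ δ x y t K :=
    ⟨Subgroup.subset_closure (by simp [S]), Subgroup.subset_closure (by simp [S]),
      Subgroup.subset_closure (by simp [S]), Subgroup.subset_closure (by simp [S]),
      nK _ _ mx, nK _ _ my, nK _ _ mt⟩
  have h1 := good_main hab' hbc' hcd' hda' hx hy ht hK D
  have hX := Subgroup.mul_mem _ (Subgroup.mul_mem _ (Subgroup.pow_mem _ mt D) mx)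
    (Subgroup.inv_mem _ (Subgroup.pow_mem _ mt D))
  have h2 := Subgroup.mul_mem _ (Subgroup.mul_mem _ (Subgroup.mul_mem _ hX my)
    (Subgroup.inv_mem _ hX)) (Subgroup.inv_mem _ my)
  have h3 := Subgroup.mul_mem _ (Subgroup.inv_mem _ (Subgroup.mem_comap.1 h1)) h2
  simp only [Prod.pow_mk, Prod.mk_mul_mk, Prod.inv_mk, MonoidHom.inl_apply, inv_mul_cancel,
    inv_one, one_mul, comm_val] at h3
  obtain ⟨m, hm⟩ := hden _ h3
  have hpos : (0 : ℚ) < 2 ^ D := by positivity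
  rw [zpow_neg, zpow_natCast, ← div_eq_mul_inv, div_eq_iff hpos.ne'] at hm
  have hm' : (D : ℤ) = m * 2 ^ D := by exact_mod_cast hm
  have hlt : (D : ℤ) < 2 ^ D := by exact_mod_cast Nat.lt_two_pow_self
  have hD' : (0 : ℤ) < D := by exact_mod_cast hD
  have : (0 : ℤ) < 2 ^ D := by positivity
  rcases le_or_gt m 0 with h | h <;> nlinarith

end Pool.Agent.H744Z
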