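import Mathlib

/-!
Ping-pong structures on amalgamated products and subgroups generated by subgroups of the factors.
-/

set_option autoImplicit false

namespace Pool.Agent.H744Z

open Monoid

/-- The first-letter structure of an amalgamated product. -/
structure PP (G : Type*) [Group G] (ι : Type*) where
  A : ι → Subgroup G
  C : Subgroup G
  fst : G → Option ι
  fst_one : fst 1 = none
  fst_C : ∀ c ∈ C, ∀ g, fst (c * g) = fst g
  fst_A : ∀ i, ∀ x ∈ A i, x ∉ C → ∀ g, fst g ≠ some i → fst (x * g) = some i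

namespace PP

variable {G G' : Type*} [Group G] [Group G'] {ι : Type*}

/-- Pull back along a homomorphism. -/
def comap (P : PP G ι) (π : G' →* G) : PP G' ι where
  A i := (P.A i).comap π
  C := P.C.comap π
  fst g := P.fst (π g)
  fst_one := by simp [P.fst_one]
  fst_C c hc g := by rw [map_mul]; exact P.fst_C _ hc _
  fst_A i x hx hxc g hg := by rw [map_mul]; exact P.fst_A i _ hx hxc _ hg

/-- A compatible system of subgroups of the factors. -/
structure Sub (P : PP G ι) where
  S : ι → Subgroup G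
  S0 : Subgroup G
  le_A : ∀ i, S i ≤ P.A i
  le_C : S0 ≤ P.C
  le_S : ∀ i, S0 ≤ S i
  inter : ∀ i, ∀ x ∈ S i, x ∈ P.C → x ∈ S0

variable {P : PP G ι}

/-- Reduced forms with letters in the system. -/
inductive Form (T : Sub P) : Option ι → G → Prop
  | base (p : G) : p ∈ T.S0 → Form T none p
  | step (i : ι) (j : Option ι) (p p' : G) : p ∈ T.S i → p ∉ P.C → Form T j p' → j ≠ some i →
      Form T (some i) (p * p')

theorem Form.fst_eq {T : Sub P} {j : Option ι} {p : G} (h : Form T j p) : P.fst p = j := by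
  induction h with
  | base p hp =>
    have := P.fst_C p (T.le_C hp) 1
    rw [mul_one] at this
    rw [this, P.fst_one]
  | step i j p p' hp hpc _ hj ih =>
    exact P.fst_A i p (T.le_A i hp) hpc p' (by rw [ih]; exact hj)

theorem Form.mem {T : Sub P} {j : Option ι} {p : G} (h : Form T j p) (M : Subgroup G)
    (h0 : T.S0 ≤ M) (hM : ∀ i, T.S i ≤ M) : p ∈ M := by
  induction h with
  | base p hp => exact h0 hp
  | step i j p p' hp _ _ _ ih => exact M.mul_mem (hM i hp) ih

theorem Form.mul_base {T : Sub P} {j : Option ι} {p : G} (h : Form T j p) (c : G)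
    (hc : c ∈ T.S0) : Form T j (c * p) := by
  cases h with
  | base p hp => exact Form.base _ (T.S0.mul_mem hc hp)
  | step i j p p' hp hpc hf hj =>
    rw [← mul_assoc]
    refine Form.step i j _ _ ((T.S i).mul_mem (T.le_S i hc) hp) ?_ hf hj
    intro h
    exact hpc ((P.C.mul_mem_cancel_left (T.le_C hc)).1 h)

theorem Form.mul_left {T : Sub P} {j : Option ι} {p : G} (h : Form T j p) (i : ι) (y : G)
    (hy : y ∈ T.S i) : ∃ j', Form T j' (y * p) := by
  by_cases hyc : y ∈ P.C
  · exact ⟨j, h.mul_base y (T.inter i y hy hyc)⟩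
  by_cases hj : j = some i
  · subst hj
    cases h with
    | step _ j p p' hp hpc hf hj =>
      rw [← mul_assoc]
      have hm := (T.S i).mul_mem hy hp
      by_cases hc : y * p ∈ P.C
      · exact ⟨j, hf.mul_base _ (T.inter i _ hm hc)⟩
      · exact ⟨some i, Form.step i j _ _ hm hc hf hj⟩
  · exact ⟨some i, Form.step i j _ _ hy hyc h hj⟩

theorem exists_form (T : Sub P) {p : G} (hp : p ∈ ⨆ i, T.S i) : ∃ j, Form T j p := by
  have key : ∀ g ∈ ⨆ i, T.S i, ∀ q, (∃ j, Form T j q) → ∃ j, Form T j (g * q) := by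
    intro g hg
    induction hg using Subgroup.iSup_induction' with
    | hp i x hx =>
      rintro q ⟨j, hq⟩
      exact hq.mul_left i x hx
    | h1 => intro q hq; simpa using hq
    | hmul x y _ _ hx hy =>
      intro q hq
      rw [mul_assoc]
      exact hx _ (hy q hq)
  have := key p hp 1 ⟨none, Form.base 1 T.S0.one_mem⟩
  simpa using this

theorem mem_S0 (T : Sub P) {p : G} (hp : p ∈ ⨆ i, T.S i) (hc : p ∈ P.C) : p ∈ T.S0 := by
  obtain ⟨j, hj⟩ := exists_form T hp
  have h1 : P.fst p = none := by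
    have := P.fst_C p hc 1
    rw [mul_one] at this
    rw [this, P.fst_one]
  have h2 := hj.fst_eq
  rw [h1] at h2
  subst h2
  cases hj with
  | base _ h => exact h

/-- First letters of an element of the generated subgroup. -/
theorem first_letter (T : Sub P) {i : ι} {x g : G} (hx : x ∈ P.A i) (hxc : x ∉ P.C)
    (hg : P.fst g ≠ some i) (hp : x * g ∈ ⨆ i, T.S i) : ∃ r ∈ T.S i, r⁻¹ * x ∈ P.C := by
  obtain ⟨j, hj⟩ := exists_form T hp
  have h1 := P.fst_A i x hx hxc g hg
  have h2 := hj.fst_eq
  rw [h1] at h2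
  subst h2
  generalize hq : x * g = q at hj
  cases hj with
  | step _ j r r' hr hrc hf hj =>
    refine ⟨r, hr, ?_⟩
    by_contra hne
    have hm : r⁻¹ * x ∈ P.A i := (P.A i).mul_mem ((P.A i).inv_mem (T.le_A i hr)) hx
    have h3 := P.fst_A i _ hm hne g hg
    have h4 : r⁻¹ * x * g = r' := by rw [mul_assoc, hq]; simp
    rw [h4, hf.fst_eq] at h3
    exact hj h3

end PP

section pushout

variable {ι : Type*} {G : ι → Type*} {H : Type*} [∀ i, Group (G i)] [Group H]
  {φ : ∀ i, H →* G i}

open PushoutI in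
theorem exists_PP (hφ : ∀ i, Function.Injective (φ i)) :
    ∃ P : PP (PushoutI φ) ι, (∀ i, P.A i = (of (φ := φ) i).range) ∧ P.C = (base φ).range := by
  classical
  obtain ⟨d⟩ := NormalWord.transversal_nonempty φ hφ
  have hs : ∀ g : PushoutI φ, ∃ w : NormalWord d, w.prod = g := fun g =>
    ⟨g • NormalWord.empty, by simp⟩
  choose nf hnf using hs
  have huniq : ∀ (w : NormalWord d), nf w.prod = w := fun w =>
    NormalWord.prod_injective (hnf _)
  refine ⟨⟨fun i => (of (φ := φ) i).range, (base φ).range, fun g => (nf g).fstIdx, ?_, ?_, ?_⟩,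
    fun _ => rfl, rfl⟩
  · have := huniq NormalWord.empty
    rw [NormalWord.prod_empty] at this
    rw [this]
    rfl
  · rintro _ ⟨h, rfl⟩ g
    have := huniq (h • nf g)
    rw [NormalWord.prod_base_smul, hnf] at this
    rw [this]
    rfl
  · rintro i _ ⟨y, rfl⟩ hy g hg
    have hy' : y ∉ (φ i).range := by
      rintro ⟨h, rfl⟩
      exact hy ⟨h, (of_apply_eq_base φ i h).symm⟩
    have := huniq (NormalWord.cons y (nf g) hg hy')
    rw [NormalWord.prod_cons, hnf] at this
    rw [this]
    rfl

open PushoutI in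
theorem of_mem_base (hφ : ∀ i, Function.Injective (φ i)) {i : ι} {y : G i}
    (h : of (φ := φ) i y ∈ (base φ).range) : ∃ z, φ i z = y := by
  obtain ⟨z, hz⟩ := h
  refine ⟨z, of_injective hφ i ?_⟩
  rw [of_apply_eq_base, hz]

end pushout

end Pool.Agent.H744Z
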